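import Pool.Agent.H12.Quot

/-!
The action of the absolute Galois group on the points of a Weierstrass curve.
-/

namespace Pool.Agent.H12

open scoped Classical
open WeierstrassCurve.Affine

universe u

variable {K : Type u} [Field K] (W : WeierstrassCurve K)

/-- The Galois action on points. -/
@[reducible] noncomputable def galAct :
    DistribMulAction (AlgebraicClosure K ≃ₐ[K] AlgebraicClosure K)
      (W.baseChange (AlgebraicClosure K)).toAffine.Point where
  smul σ P := (Point.map σ.toAlgHom : (W.baseChange (AlgebraicClosure K)).toAffine.Point →+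
      (W.baseChange (AlgebraicClosure K)).toAffine.Point) P
  one_smul P := by cases P <;> rfl
  mul_smul σ τ P := by cases P <;> rfl
  smul_zero σ := rfl
  smul_add σ P Q := map_add (Point.map σ.toAlgHom :
    (W.baseChange (AlgebraicClosure K)).toAffine.Point →+
      (W.baseChange (AlgebraicClosure K)).toAffine.Point) P Q

theorem exists_of_fixed [PerfectField K] (L : IntermediateField K (AlgebraicClosure K))
    (P : (W.baseChange (AlgebraicClosure K)).toAffine.Point)
    (hP : ∀ σ ∈ L.fixingSubgroup, (Point.map σ.toAlgHom :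
      (W.baseChange (AlgebraicClosure K)).toAffine.Point →+
      (W.baseChange (AlgebraicClosure K)).toAffine.Point) P = P) :
    ∃ Q : (W.baseChange L).toAffine.Point, (Point.map L.val : (W.baseChange L).toAffine.Point →+
      (W.baseChange (AlgebraicClosure K)).toAffine.Point) Q = P := by
  have hfix : ∀ x : AlgebraicClosure K, (∀ σ ∈ L.fixingSubgroup, σ x = x) → x ∈ L := by
    intro x hx
    rw [← InfiniteGalois.fixedField_fixingSubgroup L, IntermediateField.mem_fixedField_iff]
    exact hx
  cases P with
  | zero => exact ⟨0, rfl⟩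
  | some x y h =>
    have hx : x ∈ L := hfix x (fun σ hσ => by
      have := hP σ hσ
      rw [Point.map_some, Point.some.injEq] at this
      exact this.1)
    have hy : y ∈ L := hfix y (fun σ hσ => by
      have := hP σ hσ
      rw [Point.map_some, Point.some.injEq] at this
      exact this.2)
    have h' : (W.baseChange L).toAffine.Nonsingular (⟨x, hx⟩ : L) (⟨y, hy⟩ : L) :=
      (WeierstrassCurve.Affine.baseChange_nonsingular (f := L.val) W L.val.injective _ _).mp h
    exact ⟨Point.some _ _ h', rfl⟩

theorem fixingSubgroup_normal (L : IntermediateField K (AlgebraicClosure K)) [Normal K L] :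
    L.fixingSubgroup.Normal := by
  rw [← IntermediateField.restrictNormalHom_ker]; infer_instance

theorem fixingSubgroup_finiteIndex (L : IntermediateField K (AlgebraicClosure K)) [Normal K L]
    [FiniteDimensional K L] : L.fixingSubgroup.FiniteIndex := by
  rw [← IntermediateField.restrictNormalHom_ker]; infer_instance

open Topology in
theorem fix_nhds (P : (W.baseChange (AlgebraicClosure K)).toAffine.Point) :
    {σ : AlgebraicClosure K ≃ₐ[K] AlgebraicClosure K | (Point.map σ.toAlgHom :
      (W.baseChange (AlgebraicClosure K)).toAffine.Point →+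
      (W.baseChange (AlgebraicClosure K)).toAffine.Point) P = P} ∈ 𝓝 1 := by
  cases P with
  | zero => exact Filter.univ_mem' fun _ => rfl
  | some x y h =>
    have h1 : ∀ z : AlgebraicClosure K, {σ : AlgebraicClosure K ≃ₐ[K] AlgebraicClosure K |
        σ z = z} ∈ 𝓝 1 := fun z =>
      (stabilizer_isOpen_of_isIntegral z).mem_nhds
        (show (1 : AlgebraicClosure K ≃ₐ[K] AlgebraicClosure K) • z = z from rfl)
    filter_upwards [h1 x, h1 y] with σ hx hy
    show Point.map σ.toAlgHom (Point.some x y h) = Point.some x y h
    rw [Point.map_some, Point.some.injEq]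
    exact ⟨hx, hy⟩


open Topology in
/-- The inequality for a finite family of pairwise non-cohomologous cocycles. -/
theorem galois_family [PerfectField K] (L : IntermediateField K (AlgebraicClosure K)) [Normal K L]
    (p : ℕ) [hp : Fact p.Prime]
    (hrank : Module.rank ℤ (W.baseChange L).toAffine.Point < Cardinal.aleph0)
    (htors : ∀ P : (W.baseChange L).toAffine.Point, p • P = 0 → P = 0)
    {ι : Type*} [Fintype ι]
    (f : ι → (AlgebraicClosure K ≃ₐ[K] AlgebraicClosure K) →
      (W.baseChange (AlgebraicClosure K)).toAffine.Point)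
    (hcont : ∀ i, IsLocallyConstant (f i))
    (hcoc : ∀ i, ∀ σ τ : AlgebraicClosure K ≃ₐ[K] AlgebraicClosure K,
      f i (σ * τ) = f i σ + (Point.map σ.toAlgHom :
        (W.baseChange (AlgebraicClosure K)).toAffine.Point →+
        (W.baseChange (AlgebraicClosure K)).toAffine.Point) (f i τ))
    (hpp : ∀ i, ∃ n : ℕ, ∃ P : (W.baseChange (AlgebraicClosure K)).toAffine.Point,
      ∀ σ : AlgebraicClosure K ≃ₐ[K] AlgebraicClosure K, p ^ n • f i σ = (Point.map σ.toAlgHom :
        (W.baseChange (AlgebraicClosure K)).toAffine.Point →+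
        (W.baseChange (AlgebraicClosure K)).toAffine.Point) P - P)
    (hL : ∀ i, ∃ P : (W.baseChange (AlgebraicClosure K)).toAffine.Point,
      ∀ σ : AlgebraicClosure K ≃ₐ[K] AlgebraicClosure K, (∀ x ∈ L, σ x = x) →
        f i σ = (Point.map σ.toAlgHom :
        (W.baseChange (AlgebraicClosure K)).toAffine.Point →+
        (W.baseChange (AlgebraicClosure K)).toAffine.Point) P - P)
    (hne : ∀ i j, i ≠ j → ¬ ∃ P : (W.baseChange (AlgebraicClosure K)).toAffine.Point,
      ∀ σ : AlgebraicClosure K ≃ₐ[K] AlgebraicClosure K,
        f i σ - f j σ = (Point.map σ.toAlgHom :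
        (W.baseChange (AlgebraicClosure K)).toAffine.Point →+
        (W.baseChange (AlgebraicClosure K)).toAffine.Point) P - P) :
    Fintype.card ι ^ (p - 1) * p ^ Module.finrank ℤ (W.baseChange K).toAffine.Point ≤
      p ^ Module.finrank ℤ (W.baseChange L).toAffine.Point := by
  let _ := galAct W
  have hsm : ∀ (σ : AlgebraicClosure K ≃ₐ[K] AlgebraicClosure K)
      (P : (W.baseChange (AlgebraicClosure K)).toAffine.Point),
      (Point.map σ.toAlgHom : (W.baseChange (AlgebraicClosure K)).toAffine.Point →+
        (W.baseChange (AlgebraicClosure K)).toAffine.Point) P = σ • P := fun _ _ => rfl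
  simp only [hsm] at hcoc hpp hL hne
  choose P hP using hL
  -- the normalised cocycles
  let g : ι → (AlgebraicClosure K ≃ₐ[K] AlgebraicClosure K) →
      (W.baseChange (AlgebraicClosure K)).toAffine.Point := fun i σ => f i σ - (σ • P i - P i)
  have hgc : ∀ i σ τ, g i (σ * τ) = g i σ + σ • g i τ := by
    intro i σ τ
    simp only [g]
    rw [hcoc, mul_smul, smul_sub, smul_sub]
    abel
  have hf1 : ∀ i, f i 1 = 0 := by
    intro i
    have := hcoc i 1 1
    rw [one_smul, mul_one] at this
    simpa using this
  have hg1 : ∀ i, {σ | g i σ = 0} ∈ 𝓝 (1 : AlgebraicClosure K ≃ₐ[K] AlgebraicClosure K) := by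
    intro i
    have h1 : {σ | f i σ = 0} ∈ 𝓝 (1 : AlgebraicClosure K ≃ₐ[K] AlgebraicClosure K) :=
      ((hcont i).isOpen_fiber 0).mem_nhds (hf1 i)
    filter_upwards [h1, fix_nhds W (P i)] with σ h2 h3
    have h3' : σ • P i = P i := h3
    show f i σ - (σ • P i - P i) = 0
    rw [show f i σ = 0 from h2, h3', sub_self, sub_self]
  have hall : {σ | ∀ i, g i σ = 0} ∈ 𝓝 (1 : AlgebraicClosure K ≃ₐ[K] AlgebraicClosure K) := by
    have : {σ | ∀ i, g i σ = 0} = ⋂ i, {σ | g i σ = 0} := by ext; simp
    rw [this]
    exact Filter.iInter_mem.2 hg1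
  obtain ⟨E, hE1, hE2, hE3⟩ := (krullTopology_mem_nhds_one_iff_of_normal _ _ _).1 hall
  have := fixingSubgroup_normal E
  have := fixingSubgroup_finiteIndex E
  have := fixingSubgroup_normal L
  let V : Subgroup (AlgebraicClosure K ≃ₐ[K] AlgebraicClosure K) :=
    E.fixingSubgroup ⊔ L.fixingSubgroup
  have hVfin : V.FiniteIndex := Subgroup.finiteIndex_of_le (le_sup_left : E.fixingSubgroup ≤ V)
  have hgV : ∀ i, ∀ σ ∈ V, g i σ = 0 := by
    intro i
    let D : Subgroup (AlgebraicClosure K ≃ₐ[K] AlgebraicClosure K) :=
      { carrier := {σ | g i σ = 0}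
        one_mem' := by
          show f i 1 - ((1 : AlgebraicClosure K ≃ₐ[K] AlgebraicClosure K) • P i - P i) = 0
          rw [hf1, one_smul, sub_self, sub_self]
        mul_mem' := by
          intro a b ha hb
          show g i (a * b) = 0
          rw [hgc, show g i a = 0 from ha, show g i b = 0 from hb, smul_zero, add_zero]
        inv_mem' := by
          intro a ha
          have h1 := hgc i a⁻¹ a
          rw [show g i a = 0 from ha, smul_zero, add_zero, inv_mul_cancel] at h1
          show g i a⁻¹ = 0
          rw [← h1]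
          show f i 1 - ((1 : AlgebraicClosure K ≃ₐ[K] AlgebraicClosure K) • P i - P i) = 0
          rw [hf1, one_smul, sub_self, sub_self] }
    have h1 : V ≤ D := by
      refine sup_le (fun σ hσ => hE3 hσ i) (fun σ hσ => ?_)
      show f i σ - (σ • P i - P i) = 0
      rw [hP i σ (fun x hx => hσ ⟨x, hx⟩), sub_self]
    exact fun σ hσ => h1 hσ
  have hgp : ∀ i, ∃ n : ℕ, ∃ a, ∀ σ, p ^ n • g i σ = σ • a - a := by
    intro i
    obtain ⟨n, Q, hQ⟩ := hpp i
    refine ⟨n, Q - p ^ n • P i, fun σ => ?_⟩
    show p ^ n • (f i σ - (σ • P i - P i)) = σ • (Q - p ^ n • P i) - (Q - p ^ n • P i)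
    have e1 : p ^ n • (f i σ - (σ • P i - P i)) =
        p ^ n • f i σ - (p ^ n • (σ • P i) - p ^ n • P i) := by
      rw [nsmul_sub, nsmul_sub]
    have e2 : p ^ n • (σ • P i) = σ • (p ^ n • P i) :=
      (map_nsmul (Point.map σ.toAlgHom :
        (W.baseChange (AlgebraicClosure K)).toAffine.Point →+
        (W.baseChange (AlgebraicClosure K)).toAffine.Point) (p ^ n) (P i)).symm
    rw [e1, hQ, e2, smul_sub]
    abel
  have hgne : ∀ i j, i ≠ j → ¬ ∃ a, ∀ σ, g i σ - g j σ = σ • a - a := by
    rintro i j hij ⟨a, ha⟩
    refine hne i j hij ⟨a + P i - P j, fun σ => ?_⟩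
    have := ha σ
    simp only [g] at this
    rw [smul_sub, smul_add, show σ • a = a + (f i σ - (σ • P i - P i) - (f j σ - (σ • P j - P j)))
      by rw [this]; abel]
    abel
  have hfixL : ∀ a : (W.baseChange (AlgebraicClosure K)).toAffine.Point,
      (∀ σ ∈ V, σ • a = a) → ∃ Q : (W.baseChange L).toAffine.Point,
        (Point.map L.val : (W.baseChange L).toAffine.Point →+
          (W.baseChange (AlgebraicClosure K)).toAffine.Point) Q = a := by
    intro a ha
    exact exists_of_fixed W L a (fun σ hσ => ha σ ((le_sup_right : L.fixingSubgroup ≤ V) hσ))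
  have hinjL := Point.map_injective (W' := W) L.val
  have htf : ∀ a : (W.baseChange (AlgebraicClosure K)).toAffine.Point,
      (∀ σ ∈ V, σ • a = a) → p • a = 0 → a = 0 := by
    intro a ha hpa
    obtain ⟨Q, rfl⟩ := hfixL a ha
    rw [← map_nsmul] at hpa
    rw [htors Q (hinjL (hpa.trans (map_zero _).symm)), map_zero]
  have hrk : Module.rank ℤ (FixedPoints.addSubgroup V
      (W.baseChange (AlgebraicClosure K)).toAffine.Point) ≤
      Module.rank ℤ (W.baseChange L).toAffine.Point := by
    choose q hq using fun a : FixedPoints.addSubgroup V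
      (W.baseChange (AlgebraicClosure K)).toAffine.Point =>
        hfixL a.1 (fun σ hσ => a.2 ⟨σ, hσ⟩)
    let F : FixedPoints.addSubgroup V (W.baseChange (AlgebraicClosure K)).toAffine.Point →+
        (W.baseChange L).toAffine.Point :=
      { toFun := q
        map_zero' := hinjL (by rw [hq, map_zero]; rfl)
        map_add' := fun a b => hinjL (by rw [hq, map_add, hq, hq]; rfl) }
    refine LinearMap.rank_le_of_injective F.toIntLinearMap ?_
    intro a b hab
    have hab' : q a = q b := hab
    apply Subtype.ext
    rw [← hq a, ← hq b, hab']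
  have hrV : Module.rank ℤ (FixedPoints.addSubgroup V
      (W.baseChange (AlgebraicClosure K)).toAffine.Point) < Cardinal.aleph0 :=
    lt_of_le_of_lt hrk hrank
  have hmain := family_bound V p htf hrV g hgc hgV hgp hgne
  have h1 : Module.finrank ℤ (FixedPoints.addSubgroup V
      (W.baseChange (AlgebraicClosure K)).toAffine.Point) ≤
      Module.finrank ℤ (W.baseChange L).toAffine.Point := Cardinal.toNat_le_toNat hrk hrank
  have h2 : Module.finrank ℤ (W.baseChange K).toAffine.Point ≤
      Module.finrank ℤ (FixedPoints.addSubgroup (AlgebraicClosure K ≃ₐ[K] AlgebraicClosure K)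
        (W.baseChange (AlgebraicClosure K)).toAffine.Point) := by
    have hrG : Module.rank ℤ (FixedPoints.addSubgroup
        (AlgebraicClosure K ≃ₐ[K] AlgebraicClosure K)
        (W.baseChange (AlgebraicClosure K)).toAffine.Point) < Cardinal.aleph0 := by
      let F1 : FixedPoints.addSubgroup (AlgebraicClosure K ≃ₐ[K] AlgebraicClosure K)
          (W.baseChange (AlgebraicClosure K)).toAffine.Point →+ FixedPoints.addSubgroup V
              (W.baseChange (AlgebraicClosure K)).toAffine.Point :=
          { toFun := fun c => ⟨c.1, fun n => c.2 n⟩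
            map_zero' := rfl
            map_add' := fun _ _ => rfl }
      refine lt_of_le_of_lt (LinearMap.rank_le_of_injective F1.toIntLinearMap ?_) hrV
      intro a b hab
      have hab' : F1 a = F1 b := hab
      have h9 : (F1 a).1 = (F1 b).1 := by rw [hab']
      exact Subtype.ext h9
    let F : (W.baseChange K).toAffine.Point →+
        FixedPoints.addSubgroup (AlgebraicClosure K ≃ₐ[K] AlgebraicClosure K)
        (W.baseChange (AlgebraicClosure K)).toAffine.Point :=
      { toFun := fun Q => ⟨(Point.map (Algebra.ofId K (AlgebraicClosure K)) :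
            (W.baseChange K).toAffine.Point →+
            (W.baseChange (AlgebraicClosure K)).toAffine.Point) Q, by
          intro σ
          cases Q with
          | zero => rfl
          | some x y h =>
            show Point.map σ.toAlgHom (Point.map _ (Point.some x y h)) = _
            rw [Point.map_some, Point.map_some, Point.some.injEq]
            exact ⟨σ.commutes x, σ.commutes y⟩⟩
        map_zero' := rfl
        map_add' := fun a b => Subtype.ext (map_add _ a b) }
    refine Cardinal.toNat_le_toNat (LinearMap.rank_le_of_injective F.toIntLinearMap ?_) hrG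
    intro a b hab
    have hab' : F a = F b := hab
    have h9 : (F a).1 = (F b).1 := by rw [hab']
    exact Point.map_injective (W' := W) _ h9
  calc _ ≤ _ := Nat.mul_le_mul_left _ (Nat.pow_le_pow_right hp.out.pos h2)
    _ ≤ _ := hmain
    _ ≤ _ := Nat.pow_le_pow_right hp.out.pos h1

end Pool.Agent.H12
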