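import Pool.Agent.H12.Sharp

/-!
The sharp inequality for finite groups and for Galois groups.
-/

namespace Pool.Agent.H12

open Function Finset

universe u v

section Sylow

theorem sharp_finite (p : ℕ) [hp : Fact p.Prime] {G : Type} [Group G] [Finite G] {A : Type u}
    [AddCommGroup A] [DistribMulAction G A]
    (htf : ∀ a : A, p • a = 0 → a = 0) (hr : Module.rank ℤ A < Cardinal.aleph0)
    {ι : Type} [Fintype ι] (f : ι → G → A) (hf : ∀ i, f i ∈ Z1 G A) (ν : ι → ℕ)
    (hν : ∀ a : ι → ℤ, (∑ i, a i • f i) ∈ B1 G A → ∀ i, (p : ℤ) ^ ν i ∣ a i) :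
    ∑ i, (p ^ ν i - 1) + Module.finrank ℤ (FixedPoints.addSubgroup G A) ≤
      Module.finrank ℤ A := by
  classical
  obtain ⟨P, ⟨n, hn⟩, hPi⟩ : ∃ P : Subgroup G, (∃ n, Nat.card P = p ^ n) ∧ ¬ p ∣ P.index := by
    obtain ⟨P⟩ : Nonempty (Sylow p G) := inferInstance
    exact ⟨P, IsPGroup.iff_card.1 P.isPGroup', P.not_dvd_index⟩
  have h1 := sharp_pgroup (G := P) p n hn htf hr (fun i => res A P (f i))
    (fun i => map_res_Z1 P ⟨f i, hf i, rfl⟩) ν (by
    intro a ha i
    have h2 : ∑ i, a i • res A P (f i) = res A P (∑ i, a i • f i) := by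
      rw [map_sum]
      exact sum_congr rfl fun i _ => (map_zsmul _ _ _).symm
    rw [h2] at ha
    obtain ⟨x, hx⟩ := ha
    have h3 : ∑ i, a i • f i - dd G A x ∈ Z1 G A :=
      sub_mem (sum_mem fun i _ => zsmul_mem (hf i) _) (B1_le_Z1 G A ⟨x, rfl⟩)
    have h4 := index_smul_mem P h3 (by
      intro y hy
      have := congrFun hx ⟨y, hy⟩
      rw [Pi.sub_apply, sub_eq_zero]
      exact this.symm)
    have h5 : P.index • (∑ i, a i • f i) ∈ B1 G A := by
      have h6' : dd G A x ∈ B1 G A := ⟨x, rfl⟩
      have h6 : P.index • dd G A x ∈ B1 G A := nsmul_mem h6' _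
      have := add_mem h4 h6
      rwa [← smul_add, sub_add_cancel] at this
    have h7 : ∑ i, ((P.index : ℤ) * a i) • f i ∈ B1 G A := by
      rw [smul_sum] at h5
      convert h5 using 1
      refine sum_congr rfl fun i _ => ?_
      rw [mul_smul, natCast_zsmul]
    have h8 := hν _ h7 i
    have h9 : IsCoprime ((p : ℤ) ^ ν i) (P.index : ℤ) := by
      have := (Nat.Prime.coprime_iff_not_dvd hp.out).2 hPi
      exact (Nat.isCoprime_iff_coprime.2 this).pow_left
    exact h9.dvd_of_dvd_mul_left h8)
  have h5 : Module.finrank ℤ (FixedPoints.addSubgroup G A) ≤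
      Module.finrank ℤ (FixedPoints.addSubgroup P A) := by
    have hrP : Module.rank ℤ (FixedPoints.addSubgroup P A) < Cardinal.aleph0 :=
      lt_of_le_of_lt (LinearMap.rank_le_of_injective
        (FixedPoints.addSubgroup P A).subtype.toIntLinearMap Subtype.val_injective) hr
    let f2 : FixedPoints.addSubgroup G A →+ FixedPoints.addSubgroup P A :=
      { toFun := fun c => ⟨c.1, fun n => c.2 n⟩
        map_zero' := rfl
        map_add' := fun _ _ => rfl }
    refine Cardinal.toNat_le_toNat (LinearMap.rank_le_of_injective f2.toIntLinearMap ?_) hrP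
    intro a b hab
    have hab' : f2 a = f2 b := hab
    have h9 : (f2 a).1 = (f2 b).1 := by rw [hab']
    exact Subtype.ext h9
  omega

/-- The action on the subgroup `m A`. -/
@[reducible] def actRange {G : Type} [Group G] {A : Type u} [AddCommGroup A]
    [DistribMulAction G A] (m : ℕ) : DistribMulAction G (mulp (C := A) m).range where
  smul g a := ⟨g • (a : A), by
    obtain ⟨b, hb⟩ := a.2
    refine ⟨g • b, ?_⟩
    rw [← hb, mulp_apply, mulp_apply]
    exact (map_nsmul (DistribSMul.toAddMonoidHom A g) m b).symm⟩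
  one_smul a := Subtype.ext (one_smul G (a : A))
  mul_smul g h a := Subtype.ext (mul_smul g h (a : A))
  smul_zero g := Subtype.ext (smul_zero g)
  smul_add g a b := Subtype.ext (smul_add g (a : A) (b : A))

theorem rank_range_mulp {B : Type u} [AddCommGroup B] (m : ℕ) (hm : m ≠ 0) :
    Module.rank ℤ (mulp (C := B) m).range = Module.rank ℤ B := by
  let F : B →ₗ[ℤ] B := (mulp (C := B) m).toIntLinearMap
  have h1 := rank_quotient_eq_of_le_torsion (R := ℤ) (M := B) (M' := LinearMap.ker F) (by
    intro b hb
    have h2 : m • b = 0 := hb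
    refine (Submodule.mem_torsion_iff _).2 ⟨⟨(m : ℤ), ?_⟩, ?_⟩
    · exact mem_nonZeroDivisors_of_ne_zero (by exact_mod_cast hm)
    · show (m : ℤ) • b = 0
      rw [natCast_zsmul]; exact h2)
  rw [← h1]
  exact (LinearEquiv.rank_eq F.quotKerEquivRange).symm

/-- The sharp inequality when the `p`-power torsion of `A` is killed by `p ^ t`. -/
theorem sharp_finite_t (p : ℕ) [hp : Fact p.Prime] {G : Type} [Group G] [Finite G] {A : Type u}
    [AddCommGroup A] [DistribMulAction G A] (t : ℕ)
    (htf : ∀ a : A, p ^ (t + 1) • a = 0 → p ^ t • a = 0)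
    (hr : Module.rank ℤ A < Cardinal.aleph0)
    {ι : Type} [Fintype ι] (f : ι → G → A) (hf : ∀ i, f i ∈ Z1 G A) (ν : ι → ℕ)
    (hν : ∀ a : ι → ℤ, (∑ i, a i • (p ^ t • f i)) ∈ B1 G A → ∀ i, (p : ℤ) ^ ν i ∣ a i) :
    ∑ i, (p ^ ν i - 1) + Module.finrank ℤ (FixedPoints.addSubgroup G A) ≤
      Module.finrank ℤ A := by
  classical
  let _ : DistribMulAction G (mulp (C := A) (p ^ t)).range := actRange (p ^ t)
  have hpt : p ^ t ≠ 0 := pow_ne_zero _ hp.out.ne_zero
  have hgn : ∀ (g : G) (a : A), g • (p ^ t • a) = p ^ t • (g • a) := fun g a =>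
    map_nsmul (DistribSMul.toAddMonoidHom A g) (p ^ t) a
  have hrk := rank_range_mulp (B := A) (p ^ t) hpt
  have hr' : Module.rank ℤ (mulp (C := A) (p ^ t)).range < Cardinal.aleph0 := by rw [hrk]; exact hr
  let f' : ι → G → (mulp (C := A) (p ^ t)).range := fun i g => ⟨p ^ t • f i g, ⟨f i g, rfl⟩⟩
  have h1 := sharp_finite p (A := (mulp (C := A) (p ^ t)).range) (by
    rintro ⟨_, a, rfl⟩ ha
    apply Subtype.ext
    have h2 : p • (p ^ t • a) = 0 := congrArg Subtype.val ha
    rw [smul_smul, ← pow_succ'] at h2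
    exact htf a h2) hr' f' (by
    intro i g h
    apply Subtype.ext
    show p ^ t • f i (g * h) = p ^ t • f i g + g • (p ^ t • f i h)
    rw [hf i g h, smul_add, hgn]) ν (by
    intro a ha
    obtain ⟨⟨_, x, rfl⟩, hx⟩ := mem_B1.1 ha
    refine hν a (mem_B1.2 ⟨p ^ t • x, fun g => ?_⟩)
    have h3 := congrArg Subtype.val (hx g)
    have h4 : (((∑ i, a i • f' i) g : (mulp (C := A) (p ^ t)).range) : A) =
      g • (p ^ t • x) - p ^ t • x := h3
    rw [← h4, Finset.sum_apply, Finset.sum_apply]
    push_cast
    rfl)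
  have h2 : Module.finrank ℤ (mulp (C := A) (p ^ t)).range = Module.finrank ℤ A := by
    rw [Module.finrank, hrk]; rfl
  have h3 : Module.finrank ℤ (FixedPoints.addSubgroup G A) ≤
      Module.finrank ℤ (FixedPoints.addSubgroup G (mulp (C := A) (p ^ t)).range) := by
    have hrP : Module.rank ℤ (FixedPoints.addSubgroup G (mulp (C := A) (p ^ t)).range) <
        Cardinal.aleph0 :=
      lt_of_le_of_lt (LinearMap.rank_le_of_injective
        (FixedPoints.addSubgroup G
          (mulp (C := A) (p ^ t)).range).subtype.toIntLinearMap Subtype.val_injective) hr'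
    let f2 : (mulp (C := FixedPoints.addSubgroup G A) (p ^ t)).range →+
        FixedPoints.addSubgroup G (mulp (C := A) (p ^ t)).range :=
      { toFun := fun c => ⟨⟨c.1.1, by
          obtain ⟨b, hb⟩ := c.2
          exact ⟨b.1, congrArg Subtype.val hb⟩⟩, by
          intro g
          apply Subtype.ext
          exact c.1.2 g⟩
        map_zero' := rfl
        map_add' := fun _ _ => rfl }
    have h4 : Module.rank ℤ (mulp (C := FixedPoints.addSubgroup G A) (p ^ t)).range ≤
        Module.rank ℤ (FixedPoints.addSubgroup G (mulp (C := A) (p ^ t)).range) := by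
      refine LinearMap.rank_le_of_injective f2.toIntLinearMap ?_
      intro a b hab
      have hab' : f2 a = f2 b := hab
      have h9 : (f2 a).1.1 = (f2 b).1.1 := by rw [hab']
      exact Subtype.ext (Subtype.ext h9)
    rw [rank_range_mulp _ hpt] at h4
    exact Cardinal.toNat_le_toNat h4 hrP
  omega

end Sylow

section Quot

variable {G : Type} [Group G] {M : Type u} [AddCommGroup M] [DistribMulAction G M]

theorem family_sharp (V : Subgroup G) [V.Normal] [V.FiniteIndex] (p : ℕ) [hp : Fact p.Prime]
    (t : ℕ) (htf : ∀ a : M, (∀ g ∈ V, g • a = a) → p ^ (t + 1) • a = 0 → p ^ t • a = 0)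
    (hr : Module.rank ℤ (FixedPoints.addSubgroup V M) < Cardinal.aleph0)
    {ι : Type} [Fintype ι] (f : ι → G → M)
    (hcoc : ∀ i g h, f i (g * h) = f i g + g • f i h) (hV : ∀ i, ∀ g ∈ V, f i g = 0)
    (ν : ι → ℕ)
    (hν : ∀ a : ι → ℤ, (∃ x : M, ∀ g, ∑ i, a i • (p ^ t • f i g) = g • x - x) →
      ∀ i, (p : ℤ) ^ ν i ∣ a i) :
    ∑ i, (p ^ ν i - 1) + Module.finrank ℤ (FixedPoints.addSubgroup G M) ≤
      Module.finrank ℤ (FixedPoints.addSubgroup V M) := by
  classical
  let _ : DistribMulAction (G ⧸ V) (FixedPoints.addSubgroup V M) := qact V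
  have hmk : ∀ (g : G) (a : FixedPoints.addSubgroup V M),
      ((((g : G ⧸ V) • a : FixedPoints.addSubgroup V M)) : M) = g • (a : M) := fun g a => rfl
  have hfin : Finite (G ⧸ V) := Subgroup.finite_quotient_of_finiteIndex
  have hmem : ∀ i g, f i g ∈ FixedPoints.addSubgroup V M := by
    intro i g n
    have h3 : g⁻¹ * n * g ∈ V := by
      have := (inferInstance : V.Normal).conj_mem n n.2 g⁻¹
      simpa using this
    have h1 : f i (n * g) = (n : G) • f i g := by rw [hcoc, hV i n n.2, zero_add]
    have h2 : f i (g * (g⁻¹ * n * g)) = f i g := by rw [hcoc, hV i _ h3, smul_zero, add_zero]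
    show (n : G) • f i g = f i g
    rw [← h1]
    conv_rhs => rw [← h2]
    congr 1; group
  let F : ι → (G ⧸ V) → FixedPoints.addSubgroup V M := fun i q =>
    Quotient.liftOn' q (fun g : G => (⟨f i g, hmem i g⟩ : FixedPoints.addSubgroup V M)) (by
      intro g h hgh
      rw [QuotientGroup.leftRel_apply] at hgh
      apply Subtype.ext
      have h2 : f i (g * (g⁻¹ * h)) = f i g := by rw [hcoc, hV i _ hgh, smul_zero, add_zero]
      rw [mul_inv_cancel_left] at h2
      exact h2.symm)
  have hF : ∀ i (g : G), ((F i (g : G ⧸ V) : FixedPoints.addSubgroup V M) : M) = f i g :=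
    fun i g => rfl
  have hFZ : ∀ i, F i ∈ Z1 (G ⧸ V) (FixedPoints.addSubgroup V M) := by
    intro i q r
    induction q using QuotientGroup.induction_on with
    | H g =>
      induction r using QuotientGroup.induction_on with
      | H h => exact Subtype.ext (hcoc i g h)
  have h1 := sharp_finite_t (G := G ⧸ V) (A := FixedPoints.addSubgroup V M) p t (by
    intro a ha
    apply Subtype.ext
    refine htf a (fun g hg => a.2 ⟨g, hg⟩) ?_
    exact congrArg Subtype.val ha) hr F hFZ ν (by
    intro a ha
    obtain ⟨x, hx⟩ := mem_B1.1 ha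
    refine hν a ⟨(x : M), fun g => ?_⟩
    have h2 := congrArg Subtype.val (hx (g : G ⧸ V))
    have h3 : (((∑ i, a i • (p ^ t • F i)) (g : G ⧸ V) : FixedPoints.addSubgroup V M) : M) =
        g • (x : M) - x := h2
    rw [← h3, Finset.sum_apply]
    push_cast
    rfl)
  have hfix : Module.finrank ℤ (FixedPoints.addSubgroup G M) ≤
      Module.finrank ℤ (FixedPoints.addSubgroup (G ⧸ V) (FixedPoints.addSubgroup V M)) := by
    let f2 : FixedPoints.addSubgroup G M →+
        FixedPoints.addSubgroup (G ⧸ V) (FixedPoints.addSubgroup V M) :=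
      { toFun := fun c => ⟨⟨c.1, fun n => c.2 n⟩, by
          intro q
          induction q using QuotientGroup.induction_on with
          | H g =>
            apply Subtype.ext
            exact c.2 g⟩
        map_zero' := rfl
        map_add' := fun _ _ => rfl }
    have hrP : Module.rank ℤ (FixedPoints.addSubgroup (G ⧸ V) (FixedPoints.addSubgroup V M)) <
        Cardinal.aleph0 :=
      lt_of_le_of_lt (LinearMap.rank_le_of_injective
        (FixedPoints.addSubgroup (G ⧸ V)
          (FixedPoints.addSubgroup V M)).subtype.toIntLinearMap Subtype.val_injective) hr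
    refine Cardinal.toNat_le_toNat (LinearMap.rank_le_of_injective f2.toIntLinearMap ?_) hrP
    intro a b hab
    have hab' : f2 a = f2 b := hab
    have h9 : (f2 a).1.1 = (f2 b).1.1 := by rw [hab']
    exact Subtype.ext h9
  omega

end Quot

section Galois

open scoped Classical
open WeierstrassCurve.Affine

variable {K : Type} [Field K] (W : WeierstrassCurve K)

open Topology in
/-- The sharp inequality for independent cocycles split by `L`. -/
theorem galois_sharp [PerfectField K] (L : IntermediateField K (AlgebraicClosure K)) [Normal K L]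
    (p : ℕ) [hp : Fact p.Prime]
    (hrank : Module.rank ℤ (W.baseChange L).toAffine.Point < Cardinal.aleph0)
    (t : ℕ)
    (htors : ∀ P : (W.baseChange L).toAffine.Point, p ^ (t + 1) • P = 0 → p ^ t • P = 0)
    {ι : Type} [Fintype ι]
    (f : ι → (AlgebraicClosure K ≃ₐ[K] AlgebraicClosure K) →
      (W.baseChange (AlgebraicClosure K)).toAffine.Point)
    (hcont : ∀ i, IsLocallyConstant (f i))
    (hcoc : ∀ i, ∀ σ τ : AlgebraicClosure K ≃ₐ[K] AlgebraicClosure K,
      f i (σ * τ) = f i σ + (Point.map σ.toAlgHom :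
        (W.baseChange (AlgebraicClosure K)).toAffine.Point →+
        (W.baseChange (AlgebraicClosure K)).toAffine.Point) (f i τ))
    (hL : ∀ i, ∃ P : (W.baseChange (AlgebraicClosure K)).toAffine.Point,
      ∀ σ : AlgebraicClosure K ≃ₐ[K] AlgebraicClosure K, (∀ x ∈ L, σ x = x) →
        f i σ = (Point.map σ.toAlgHom :
        (W.baseChange (AlgebraicClosure K)).toAffine.Point →+
        (W.baseChange (AlgebraicClosure K)).toAffine.Point) P - P)
    (ν : ι → ℕ)
    (hν : ∀ a : ι → ℤ, (∃ P : (W.baseChange (AlgebraicClosure K)).toAffine.Point,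
      ∀ σ : AlgebraicClosure K ≃ₐ[K] AlgebraicClosure K,
        ∑ i, a i • (p ^ t • f i σ) = (Point.map σ.toAlgHom :
        (W.baseChange (AlgebraicClosure K)).toAffine.Point →+
        (W.baseChange (AlgebraicClosure K)).toAffine.Point) P - P) →
      ∀ i, (p : ℤ) ^ ν i ∣ a i) :
    ∑ i, (p ^ ν i - 1) + Module.finrank ℤ (W.baseChange K).toAffine.Point ≤
      Module.finrank ℤ (W.baseChange L).toAffine.Point := by
  let _ := galAct W
  have hsm : ∀ (σ : AlgebraicClosure K ≃ₐ[K] AlgebraicClosure K)
      (P : (W.baseChange (AlgebraicClosure K)).toAffine.Point),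
      (Point.map σ.toAlgHom : (W.baseChange (AlgebraicClosure K)).toAffine.Point →+
        (W.baseChange (AlgebraicClosure K)).toAffine.Point) P = σ • P := fun _ _ => rfl
  simp only [hsm] at hcoc hL hν
  choose P hP using hL
  -- the normalised cocycles
  let g : ι → (AlgebraicClosure K ≃ₐ[K] AlgebraicClosure K) →
      (W.baseChange (AlgebraicClosure K)).toAffine.Point := fun i σ => f i σ - (σ • P i - P i)
  have hgc : ∀ i σ τ, g i (σ * τ) = g i σ + σ • g i τ := by
    intro i σ τ
    simp only [g]
    rw [hcoc, mul_smul, smul_sub, smul_sub]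
    abel
  have hf1 : ∀ i, f i 1 = 0 := by
    intro i
    have := hcoc i 1 1
    rw [one_smul, mul_one] at this
    simpa using this
  have hg1 : ∀ i, {σ | g i σ = 0} ∈ 𝓝 (1 : AlgebraicClosure K ≃ₐ[K] AlgebraicClosure K) := by
    intro i
    have h1 : {σ | f i σ = 0} ∈ 𝓝 (1 : AlgebraicClosure K ≃ₐ[K] AlgebraicClosure K) :=
      ((hcont i).isOpen_fiber 0).mem_nhds (hf1 i)
    filter_upwards [h1, fix_nhds W (P i)] with σ h2 h3
    have h3' : σ • P i = P i := h3
    show f i σ - (σ • P i - P i) = 0
    rw [show f i σ = 0 from h2, h3', sub_self, sub_self]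
  have hall : {σ | ∀ i, g i σ = 0} ∈ 𝓝 (1 : AlgebraicClosure K ≃ₐ[K] AlgebraicClosure K) := by
    have : {σ | ∀ i, g i σ = 0} = ⋂ i, {σ | g i σ = 0} := by ext; simp
    rw [this]
    exact Filter.iInter_mem.2 hg1
  obtain ⟨E, hE1, hE2, hE3⟩ := (krullTopology_mem_nhds_one_iff_of_normal _ _ _).1 hall
  have := fixingSubgroup_normal E
  have := fixingSubgroup_finiteIndex E
  have := fixingSubgroup_normal L
  let V : Subgroup (AlgebraicClosure K ≃ₐ[K] AlgebraicClosure K) :=
    E.fixingSubgroup ⊔ L.fixingSubgroup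
  have hVfin : V.FiniteIndex := Subgroup.finiteIndex_of_le (le_sup_left : E.fixingSubgroup ≤ V)
  have hgV : ∀ i, ∀ σ ∈ V, g i σ = 0 := by
    intro i
    let D : Subgroup (AlgebraicClosure K ≃ₐ[K] AlgebraicClosure K) :=
      { carrier := {σ | g i σ = 0}
        one_mem' := by
          show f i 1 - ((1 : AlgebraicClosure K ≃ₐ[K] AlgebraicClosure K) • P i - P i) = 0
          rw [hf1, one_smul, sub_self, sub_self]
        mul_mem' := by
          intro a b ha hb
          show g i (a * b) = 0
          rw [hgc, show g i a = 0 from ha, show g i b = 0 from hb, smul_zero, add_zero]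
        inv_mem' := by
          intro a ha
          have h1 := hgc i a⁻¹ a
          rw [show g i a = 0 from ha, smul_zero, add_zero, inv_mul_cancel] at h1
          show g i a⁻¹ = 0
          rw [← h1]
          show f i 1 - ((1 : AlgebraicClosure K ≃ₐ[K] AlgebraicClosure K) • P i - P i) = 0
          rw [hf1, one_smul, sub_self, sub_self] }
    have h1 : V ≤ D := by
      refine sup_le (fun σ hσ => hE3 hσ i) (fun σ hσ => ?_)
      show f i σ - (σ • P i - P i) = 0
      rw [hP i σ (fun x hx => hσ ⟨x, hx⟩), sub_self]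
    exact fun σ hσ => h1 hσ
  have hgν : ∀ a : ι → ℤ, (∃ x, ∀ σ, ∑ i, a i • (p ^ t • g i σ) = σ • x - x) →
      ∀ i, (p : ℤ) ^ ν i ∣ a i := by
    rintro a ⟨x, hx⟩
    refine hν a ⟨x + ∑ i, a i • (p ^ t • P i), fun σ => ?_⟩
    have e1 : ∀ i, a i • (p ^ t • f i σ) = a i • (p ^ t • g i σ) +
        (σ • (a i • (p ^ t • P i)) - a i • (p ^ t • P i)) := by
      intro i
      have e2 : σ • (a i • (p ^ t • P i)) = a i • (p ^ t • (σ • P i)) :=
        (map_zsmul (Point.map σ.toAlgHom :
          (W.baseChange (AlgebraicClosure K)).toAffine.Point →+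
          (W.baseChange (AlgebraicClosure K)).toAffine.Point) (a i) (p ^ t • P i)).trans
        (by rw [map_nsmul]; rfl)
      show _ = a i • (p ^ t • (f i σ - (σ • P i - P i))) + _
      rw [e2, nsmul_sub, nsmul_sub, zsmul_sub, zsmul_sub]
      abel
    rw [sum_congr rfl fun i _ => e1 i, sum_add_distrib, hx, smul_add, smul_sum,
      sum_sub_distrib]
    abel
  have hfixL : ∀ a : (W.baseChange (AlgebraicClosure K)).toAffine.Point,
      (∀ σ ∈ V, σ • a = a) → ∃ Q : (W.baseChange L).toAffine.Point,
        (Point.map L.val : (W.baseChange L).toAffine.Point →+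
          (W.baseChange (AlgebraicClosure K)).toAffine.Point) Q = a := by
    intro a ha
    exact exists_of_fixed W L a (fun σ hσ => ha σ ((le_sup_right : L.fixingSubgroup ≤ V) hσ))
  have hinjL := Point.map_injective (W' := W) L.val
  have htf : ∀ a : (W.baseChange (AlgebraicClosure K)).toAffine.Point,
      (∀ σ ∈ V, σ • a = a) → p ^ (t + 1) • a = 0 → p ^ t • a = 0 := by
    intro a ha hpa
    obtain ⟨Q, rfl⟩ := hfixL a ha
    rw [← map_nsmul] at hpa
    rw [← map_nsmul, htors Q (hinjL (hpa.trans (map_zero _).symm)), map_zero]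
  have hrk : Module.rank ℤ (FixedPoints.addSubgroup V
      (W.baseChange (AlgebraicClosure K)).toAffine.Point) ≤
      Module.rank ℤ (W.baseChange L).toAffine.Point := by
    choose q hq using fun a : FixedPoints.addSubgroup V
      (W.baseChange (AlgebraicClosure K)).toAffine.Point =>
        hfixL a.1 (fun σ hσ => a.2 ⟨σ, hσ⟩)
    let F : FixedPoints.addSubgroup V (W.baseChange (AlgebraicClosure K)).toAffine.Point →+
        (W.baseChange L).toAffine.Point :=
      { toFun := q
        map_zero' := hinjL (by rw [hq, map_zero]; rfl)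
        map_add' := fun a b => hinjL (by rw [hq, map_add, hq, hq]; rfl) }
    refine LinearMap.rank_le_of_injective F.toIntLinearMap ?_
    intro a b hab
    have hab' : q a = q b := hab
    apply Subtype.ext
    rw [← hq a, ← hq b, hab']
  have hrV : Module.rank ℤ (FixedPoints.addSubgroup V
      (W.baseChange (AlgebraicClosure K)).toAffine.Point) < Cardinal.aleph0 :=
    lt_of_le_of_lt hrk hrank
  have hmain := family_sharp V p t htf hrV g hgc hgV ν hgν
  have h1 : Module.finrank ℤ (FixedPoints.addSubgroup V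
      (W.baseChange (AlgebraicClosure K)).toAffine.Point) ≤
      Module.finrank ℤ (W.baseChange L).toAffine.Point := Cardinal.toNat_le_toNat hrk hrank
  have h2 : Module.finrank ℤ (W.baseChange K).toAffine.Point ≤
      Module.finrank ℤ (FixedPoints.addSubgroup (AlgebraicClosure K ≃ₐ[K] AlgebraicClosure K)
        (W.baseChange (AlgebraicClosure K)).toAffine.Point) := by
    have hrG : Module.rank ℤ (FixedPoints.addSubgroup
        (AlgebraicClosure K ≃ₐ[K] AlgebraicClosure K)
        (W.baseChange (AlgebraicClosure K)).toAffine.Point) < Cardinal.aleph0 := by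
      let F1 : FixedPoints.addSubgroup (AlgebraicClosure K ≃ₐ[K] AlgebraicClosure K)
          (W.baseChange (AlgebraicClosure K)).toAffine.Point →+ FixedPoints.addSubgroup V
              (W.baseChange (AlgebraicClosure K)).toAffine.Point :=
          { toFun := fun c => ⟨c.1, fun n => c.2 n⟩
            map_zero' := rfl
            map_add' := fun _ _ => rfl }
      refine lt_of_le_of_lt (LinearMap.rank_le_of_injective F1.toIntLinearMap ?_) hrV
      intro a b hab
      have hab' : F1 a = F1 b := hab
      have h9 : (F1 a).1 = (F1 b).1 := by rw [hab']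
      exact Subtype.ext h9
    let F : (W.baseChange K).toAffine.Point →+
        FixedPoints.addSubgroup (AlgebraicClosure K ≃ₐ[K] AlgebraicClosure K)
        (W.baseChange (AlgebraicClosure K)).toAffine.Point :=
      { toFun := fun Q => ⟨(Point.map (Algebra.ofId K (AlgebraicClosure K)) :
            (W.baseChange K).toAffine.Point →+
            (W.baseChange (AlgebraicClosure K)).toAffine.Point) Q, by
          intro σ
          cases Q with
          | zero => rfl
          | some x y h =>
            show Point.map σ.toAlgHom (Point.map _ (Point.some x y h)) = _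
            rw [Point.map_some, Point.map_some, Point.some.injEq]
            exact ⟨σ.commutes x, σ.commutes y⟩⟩
        map_zero' := rfl
        map_add' := fun a b => Subtype.ext (map_add _ a b) }
    refine Cardinal.toNat_le_toNat (LinearMap.rank_le_of_injective F.toIntLinearMap ?_) hrG
    intro a b hab
    have hab' : F a = F b := hab
    have h9 : (F a).1 = (F b).1 := by rw [hab']
    exact Point.map_injective (W' := W) _ h9
  omega

end Galois

end Pool.Agent.H12
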