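import Pool.Agent.H12.Coc

/-!
Algebra for the capitulation inequality: devissage of indices, the cyclic step.
-/

namespace Pool.Agent.H12

open Function Polynomial Finset

universe u

section Index

theorem relIndex_devissage {X Y : Type*} [AddCommGroup X] [AddCommGroup Y] (φ : X →+ Y)
    {H K : AddSubgroup X} (hHK : H ≤ K) :
    H.relIndex K = (H.map φ).relIndex (K.map φ) * (H ⊓ φ.ker).relIndex (K ⊓ φ.ker) := by
  have h1 : H.relIndex ((H ⊔ φ.ker) ⊓ K) * (H ⊔ φ.ker).relIndex K = H.relIndex K := by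
    rw [AddSubgroup.relIndex_inf_mul_relIndex, inf_sup_self]
  have h2 : (H ⊔ φ.ker) ⊓ K = H ⊔ (φ.ker ⊓ K) := sup_inf_assoc_of_le _ hHK
  have h3 : (H.map φ).relIndex (K.map φ) = (H ⊔ φ.ker).relIndex K := by
    rw [AddSubgroup.relIndex_map_map]
    have : K ⊔ φ.ker = K ⊔ (H ⊔ φ.ker) := by
      rw [← sup_assoc, sup_eq_left.2 hHK]
    rw [this, AddSubgroup.relIndex_sup_right]
  have h4 : (H ⊓ φ.ker).relIndex (K ⊓ φ.ker) = H.relIndex ((H ⊔ φ.ker) ⊓ K) := by
    rw [h2, AddSubgroup.relIndex_sup_left, inf_comm φ.ker K,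
      ← AddSubgroup.inf_relIndex_right H (K ⊓ φ.ker)]
    congr 1
    rw [← inf_assoc, inf_eq_left.2 hHK]
  rw [h3, h4, mul_comm, h1]

end Index

section Poly

theorem poly_t (p : ℕ) [hp : Fact p.Prime] : ∃ t : ℤ[X],
    (∑ i ∈ range p, (X + 1 : ℤ[X]) ^ i) = (p : ℤ[X]) * (1 + X * t) + X ^ (p - 1) := by
  have h0 := geom_sum_X_comp_X_add_one_eq_sum (R := ℤ) p
  rw [Polynomial.sum_comp] at h0
  simp only [pow_comp, X_comp] at h0
  rw [h0]
  obtain ⟨q, hq⟩ : ∃ q, p = q + 2 := ⟨p - 2, by have := hp.out.two_le; omega⟩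
  have hdvd : ∀ i ∈ range q, p ∣ p.choose (i + 2) := by
    intro i hi
    refine hp.out.dvd_choose_self (by omega) ?_
    have := mem_range.1 hi
    omega
  refine ⟨∑ i ∈ range q, ((p.choose (i + 2) / p : ℕ) : ℤ[X]) * X ^ i, ?_⟩
  have h1 : (range p).sum (fun i : ℕ => (p.choose (i + 1) : ℤ[X]) * X ^ i) =
      (p : ℤ[X]) + (∑ i ∈ range q, (p.choose (i + 2) : ℤ[X]) * X ^ (i + 1)) + X ^ (p - 1) := by
    have e1 : range p = range (q + 1 + 1) := by rw [hq]
    rw [e1, sum_range_succ, sum_range_succ']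
    have e2 : p - 1 = q + 1 := by omega
    have e3 : p.choose (q + 1 + 1) = 1 := by
      have : q + 1 + 1 = p := by omega
      rw [this, Nat.choose_self]
    rw [e2, e3]
    simp only [zero_add, Nat.choose_one_right, pow_zero, mul_one, Nat.cast_one, one_mul]
    ring
  rw [h1, mul_add, mul_one, ← mul_assoc, mul_sum]
  congr 2
  refine sum_congr rfl fun i hi => ?_
  obtain ⟨k, hk⟩ := hdvd i hi
  rw [hk, Nat.mul_div_cancel_left _ hp.out.pos]
  push_cast
  ring

theorem poly_id (p : ℕ) [hp : Fact p.Prime] : ∃ u v : ℤ[X],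
    (p : ℤ[X]) = X ^ (p - 1) * u + v * (∑ i ∈ range p, (X + 1 : ℤ[X]) ^ i) := by
  obtain ⟨t, ht⟩ := poly_t p
  refine ⟨(p : ℤ[X]) * (-t) ^ (p - 1) - ∑ i ∈ range (p - 1), (-(X * t)) ^ i,
    ∑ i ∈ range (p - 1), (-(X * t)) ^ i, ?_⟩
  have hG := mul_neg_geom_sum (-(X * t : ℤ[X])) (p - 1)
  set G := ∑ i ∈ range (p - 1), (-(X * t : ℤ[X])) ^ i with hGdef
  rw [ht]
  have e1 : (-(X * t : ℤ[X])) ^ (p - 1) = X ^ (p - 1) * (-t) ^ (p - 1) := by
    rw [← mul_pow]; ring
  rw [e1] at hG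
  have e2 : G * ((p : ℤ[X]) * (1 + X * t)) = (p : ℤ[X]) * (1 - X ^ (p - 1) * (-t) ^ (p - 1)) := by
    rw [← hG]; ring
  linear_combination -e2

end Poly

section Cyc

theorem index_range_pow {C : Type*} [AddCommGroup C] (δ : Module.End ℤ C)
    (hinj : Injective δ) (k : ℕ) :
    (LinearMap.toAddMonoidHom (δ ^ k)).range.index =
      (LinearMap.toAddMonoidHom δ).range.index ^ k := by
  induction k with
  | zero =>
    have : (LinearMap.toAddMonoidHom (δ ^ 0)).range = ⊤ := by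
      rw [AddMonoidHom.range_eq_top]; intro c; exact ⟨c, rfl⟩
    rw [this]; simp
  | succ k ih =>
    have h1 : (LinearMap.toAddMonoidHom (δ ^ (k + 1))).range =
        (LinearMap.toAddMonoidHom (δ ^ k)).range.map (LinearMap.toAddMonoidHom δ) := by
      ext x
      rw [AddMonoidHom.mem_range, AddSubgroup.mem_map]
      constructor
      · rintro ⟨c, rfl⟩
        refine ⟨(δ ^ k) c, ⟨c, rfl⟩, ?_⟩
        rw [pow_succ']; rfl
      · rintro ⟨_, ⟨c, rfl⟩, rfl⟩
        refine ⟨c, ?_⟩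
        rw [pow_succ']; rfl
    rw [h1, AddSubgroup.index_map_of_injective _ (f := LinearMap.toAddMonoidHom δ) hinj, ih,
      pow_succ]

theorem cyc_index (p : ℕ) [hp : Fact p.Prime] {C : Type u} [AddCommGroup C]
    (δ : Module.End ℤ C)
    (hS : ∑ i ∈ range p, (δ + 1) ^ i = 0) (htf : ∀ c : C, p • c = 0 → c = 0)
    (hr : Module.rank ℤ C < Cardinal.aleph0) :
    (LinearMap.toAddMonoidHom δ).range.index ≠ 0 ∧
      (LinearMap.toAddMonoidHom δ).range.index ^ (p - 1) ≤ p ^ Module.finrank ℤ C := by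
  have hinj : Injective δ := by
    rw [injective_iff_map_eq_zero]
    intro c hc
    apply htf
    have h1 : ∀ i : ℕ, ((δ + 1) ^ i : Module.End ℤ C) c = c := by
      intro i
      induction i with
      | zero => rfl
      | succ i ih =>
        rw [pow_succ', Module.End.mul_apply, ih, LinearMap.add_apply, hc, zero_add]; rfl
    have h2 : (∑ i ∈ range p, (δ + 1) ^ i : Module.End ℤ C) c = p • c := by
      rw [LinearMap.sum_apply, sum_congr rfl fun i _ => h1 i]
      simp
    rw [← h2, hS]; rfl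
  obtain ⟨u, v, huv⟩ := poly_id p
  have h3 : ∀ c : C, p • c = (δ ^ (p - 1) : Module.End ℤ C) (aeval δ u c) := by
    intro c
    have h4 := congrArg (aeval δ) huv
    simp only [map_add, map_mul, map_sum, map_pow, aeval_X, map_one, hS, mul_zero, add_zero,
      map_natCast] at h4
    have h5 := DFunLike.congr_fun h4 c
    rw [Module.End.mul_apply] at h5
    rw [← h5]
    simp
  obtain ⟨h6, h7⟩ := index_mulp_range (C := C) p htf hr
  have h8 : (mulp (C := C) p).range ≤ (LinearMap.toAddMonoidHom (δ ^ (p - 1))).range := by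
    rintro _ ⟨c, rfl⟩
    exact ⟨_, (h3 c).symm⟩
  have h9 := AddSubgroup.index_dvd_of_le h8
  have h10 : (LinearMap.toAddMonoidHom (δ ^ (p - 1))).range.index ≠ 0 := by
    intro h
    rw [h, zero_dvd_iff] at h9
    exact h6 h9
  rw [index_range_pow δ hinj] at h10 h9
  constructor
  · intro h
    apply h10
    rw [h, zero_pow]
    have := hp.out.two_le
    omega
  · exact (Nat.le_of_dvd (Nat.pos_of_ne_zero h6) h9).trans h7

theorem finrank_add_le {B C D : Type u} [AddCommGroup B] [AddCommGroup C] [AddCommGroup D]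
    (f : C →+ B) (g : D →+ B) (hinj : ∀ c d, f c + g d = 0 → c = 0 ∧ d = 0)
    (hr : Module.rank ℤ B < Cardinal.aleph0) :
    Module.rank ℤ C < Cardinal.aleph0 ∧ Module.rank ℤ D < Cardinal.aleph0 ∧
    Module.finrank ℤ C + Module.finrank ℤ D ≤ Module.finrank ℤ B := by
  let F : (C × D) →ₗ[ℤ] B := (f.coprod g).toIntLinearMap
  have hF : Injective F := by
    rw [injective_iff_map_eq_zero]
    rintro ⟨c, d⟩ h
    have h' : f c + g d = 0 := by simpa [F] using h
    obtain ⟨h1, h2⟩ := hinj c d h'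
    rw [h1, h2]; rfl
  have h1 : Module.rank ℤ C + Module.rank ℤ D ≤ Module.rank ℤ B :=
    (rank_add_rank_le_rank_prod ℤ C).trans (LinearMap.rank_le_of_injective F hF)
  have hC : Module.rank ℤ C < Cardinal.aleph0 := lt_of_le_of_lt (le_self_add.trans h1) hr
  have hD : Module.rank ℤ D < Cardinal.aleph0 := lt_of_le_of_lt (le_add_self.trans h1) hr
  refine ⟨hC, hD, ?_⟩
  have h2 := Cardinal.toNat_le_toNat h1 hr
  rwa [Cardinal.toNat_add hC hD] at h2

end Cyc

end Pool.Agent.H12
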