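import Mathlib

/-!
Elementary non-abelian-free description of `H^1(G, A)` for an additive group `A` with an action of
a group `G`, by indices of additive subgroups of the group of all functions `G → A`.
-/

namespace Pool.Agent.H12

open Function

section Basic

variable (G : Type*) [Group G] (A : Type*) [AddCommGroup A] [DistribMulAction G A]

/-- 1-cocycles. -/
def Z1 : AddSubgroup (G → A) where
  carrier := {f | ∀ g h, f (g * h) = f g + g • f h}
  zero_mem' := by intro g h; simp
  add_mem' := by
    intro a b ha hb g h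
    simp only [Pi.add_apply, ha g h, hb g h, smul_add]; abel
  neg_mem' := by
    intro a ha g h
    simp only [Pi.neg_apply, ha g h, smul_neg]; abel

/-- The coboundary map. -/
def dd : A →+ (G → A) where
  toFun a := fun g => g • a - a
  map_zero' := by ext; simp
  map_add' a b := by ext g; simp only [smul_add, Pi.add_apply]; abel

/-- 1-coboundaries. -/
def B1 : AddSubgroup (G → A) := (dd G A).range

variable {G A}

theorem mem_Z1 {f : G → A} : f ∈ Z1 G A ↔ ∀ g h, f (g * h) = f g + g • f h := Iff.rfl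

theorem mem_B1 {f : G → A} : f ∈ B1 G A ↔ ∃ a, ∀ g, f g = g • a - a := by
  constructor
  · rintro ⟨a, rfl⟩; exact ⟨a, fun g => rfl⟩
  · rintro ⟨a, h⟩; exact ⟨a, by ext g; exact (h g).symm⟩

@[simp] theorem dd_apply (a : A) (g : G) : dd G A a g = g • a - a := rfl

variable (G A) in
theorem B1_le_Z1 : B1 G A ≤ Z1 G A := by
  rintro f ⟨a, rfl⟩ g h
  simp only [dd_apply, smul_sub, mul_smul]; abel

theorem Z1_one {f : G → A} (hf : f ∈ Z1 G A) : f 1 = 0 := by
  have := hf 1 1
  simpa using this

theorem Z1_inv {f : G → A} (hf : f ∈ Z1 G A) (g : G) : f g⁻¹ = - (g⁻¹ • f g) := by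
  have := hf g⁻¹ g
  rw [inv_mul_cancel, Z1_one hf] at this
  exact eq_neg_of_add_eq_zero_left this.symm

end Basic

section PIndex

variable {C : Type*} [AddCommGroup C] (p : ℕ) [Fact p.Prime]

/-- If `C` has no `p`-torsion, lifts of `𝔽_p`-independent vectors of `C/pC` are
`ℤ`-independent. -/
theorem linearIndependent_lift (htf : ∀ c : C, p • c = 0 → c = 0) {ι : Type*} (v : ι → C)
    (hv : ∀ (s : Finset ι) (a : ι → ℤ), (∃ d, ∑ i ∈ s, a i • v i = p • d) → ∀ i ∈ s, (p : ℤ) ∣ a i) :
    LinearIndependent ℤ v := by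
  rw [linearIndependent_iff']
  intro s a ha
  have key : ∀ n : ℕ, ∀ a : ι → ℤ, ∑ i ∈ s, a i • v i = 0 → ∀ i ∈ s, (p : ℤ) ^ n ∣ a i := by
    intro n
    induction n with
    | zero => intro a _ i _; simp
    | succ n ih =>
      intro a ha i hi
      have h1 : ∀ i ∈ s, (p : ℤ) ∣ a i := hv s a ⟨0, by simp [ha]⟩
      choose! b hb using h1
      have h2 : ∑ i ∈ s, b i • v i = 0 := by
        apply htf
        rw [Finset.smul_sum, ← ha]
        refine Finset.sum_congr rfl fun j hj => ?_
        rw [hb j hj, ← natCast_zsmul, smul_smul]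
      obtain ⟨c, hc⟩ := ih b h2 i hi
      exact ⟨c, by rw [hb i hi, hc]; ring⟩
  intro i hi
  by_contra hne
  have hp1 : 1 < p := (Fact.out : p.Prime).one_lt
  obtain ⟨n, hn⟩ : ∃ n : ℕ, (a i).natAbs < p ^ n := ⟨(a i).natAbs, Nat.lt_pow_self hp1⟩
  have h3 := key n a ha i hi
  have h4 : (p ^ n : ℕ) ∣ (a i).natAbs := by
    have := Int.natAbs_dvd_natAbs.mpr h3
    simpa [Int.natAbs_pow] using this
  exact absurd (Nat.le_of_dvd (Int.natAbs_pos.mpr hne) h4) (by omega)

end PIndex

section PIndex2

variable {C : Type*} [AddCommGroup C] (p : ℕ)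

/-- multiplication by `p` -/
def mulp : C →+ C := (nsmulAddMonoidHom p)

theorem mulp_apply (c : C) : mulp (C := C) p c = p • c := rfl

theorem card_quot_aux [hp : Fact p.Prime] {C V : Type*} [AddCommGroup C] [AddCommGroup V]
    [Module (ZMod p) V]
    (π : C →+ V) (hπ : Function.Surjective π) (hker : ∀ c, π c = 0 → ∃ d, c = p • d)
    (htf : ∀ c : C, p • c = 0 → c = 0)
    (hr : Module.rank ℤ C < Cardinal.aleph0) :
    Nat.card V ≠ 0 ∧ Nat.card V ≤ p ^ Module.finrank ℤ C := by
  classical
  let b := Module.Basis.ofVectorSpace (ZMod p) V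
  let ι := Module.Basis.ofVectorSpaceIndex (ZMod p) V
  choose v hv using fun i : ι => hπ (b i)
  have hli : LinearIndependent ℤ v := by
    apply linearIndependent_lift p htf
    rintro s a ⟨d, hd⟩
    have h1 : ∑ i ∈ s, ((a i : ℤ) : ZMod p) • b i = 0 := by
      have h2 : π (∑ i ∈ s, a i • v i) = 0 := by
        rw [hd, map_nsmul]
        rw [← Nat.cast_smul_eq_nsmul (ZMod p)]
        simp
      rw [← h2, map_sum]
      refine Finset.sum_congr rfl fun i _ => ?_
      rw [Int.cast_smul_eq_zsmul, ← hv i, map_zsmul]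
    have h4 := linearIndependent_iff'.1 b.linearIndependent s _ h1
    intro i hi
    exact (ZMod.intCast_zmod_eq_zero_iff_dvd _ _).1 (h4 i hi)
  have hcard : Cardinal.lift (Cardinal.mk ι) ≤ Cardinal.lift (Module.rank ℤ C) :=
    hli.cardinal_lift_le_rank
  have hfin : Finite ι := by
    rw [← Cardinal.mk_lt_aleph0_iff, ← Cardinal.lift_lt_aleph0]
    exact lt_of_le_of_lt hcard (by simpa using hr)
  have hfi : Fintype ι := Fintype.ofFinite ι
  have hmf : Module.Finite (ZMod p) V := Module.Finite.of_basis b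
  have hfV : Finite V := Module.finite_of_finite (ZMod p)
  have hle : Fintype.card ι ≤ Module.finrank ℤ C := by
    rw [Module.finrank, ← Cardinal.toNat_natCast (Fintype.card ι)]
    exact Cardinal.toNat_le_toNat (by simpa using hcard) hr
  have hcardV : Nat.card V = p ^ Fintype.card ι := by
    rw [Module.natCard_eq_pow_finrank (K := ZMod p) (V := V), Module.finrank_eq_card_basis b,
      Nat.card_zmod]
  constructor
  · exact Nat.card_ne_zero.2 ⟨⟨0⟩, inferInstance⟩
  · rw [hcardV]
    exact Nat.pow_le_pow_right hp.out.pos hle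

theorem index_mulp_range [hp : Fact p.Prime] (htf : ∀ c : C, p • c = 0 → c = 0)
    (hr : Module.rank ℤ C < Cardinal.aleph0) :
    (mulp (C := C) p).range.index ≠ 0 ∧
      (mulp (C := C) p).range.index ≤ p ^ Module.finrank ℤ C := by
  classical
  have hVp : ∀ x : C ⧸ (mulp (C := C) p).range, p • x = 0 := by
    intro x
    induction x using QuotientAddGroup.induction_on with
    | H c =>
      rw [← QuotientAddGroup.mk_nsmul]
      exact (QuotientAddGroup.eq_zero_iff _).2 ⟨c, rfl⟩
  let _ : Module (ZMod p) (C ⧸ (mulp (C := C) p).range) := AddCommGroup.zmodModule hVp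
  rw [AddSubgroup.index_eq_card]
  refine card_quot_aux p (QuotientAddGroup.mk' (mulp (C := C) p).range)
    (QuotientAddGroup.mk'_surjective _) ?_ htf hr
  intro c hc
  obtain ⟨d, hd⟩ := (QuotientAddGroup.eq_zero_iff _).1 hc
  exact ⟨d, hd.symm⟩

end PIndex2

end Pool.Agent.H12
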