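import Mathlib

/-!
Structure of `p ^ t Q` for a `p`-primary torsion group `Q` all of whose independent families are
bounded by an inequality.
-/

namespace Pool.Agent.H12

theorem struct_of_ineq (p : ℕ) (hp : p.Prime) {Q : Type} [AddCommGroup Q]
    (htorQ : ∀ x : Q, ∃ m : ℕ, p ^ m • x = 0) (t r0 r1 : ℕ)
    (hineq : ∀ (d : ℕ) (ν : Fin d → ℕ) (x : Fin d → Q),
      (∀ a : Fin d → ℤ, ∑ i, a i • (p ^ t • x i) = 0 → ∀ i, (p : ℤ) ^ ν i ∣ a i) →
      ∑ i, (p ^ ν i - 1) + r0 ≤ r1) :
    ∃ (d : ℕ) (ν : Fin d → ℕ) (x : Fin d → Q),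
      (∀ y : Q, ∃ a : Fin d → ℤ, p ^ t • y = ∑ i, a i • (p ^ t • x i)) ∧
      (∀ a : Fin d → ℤ, ∑ i, a i • (p ^ t • x i) = 0 ↔ ∀ i, (p : ℤ) ^ ν i ∣ a i) ∧
      ∑ i, (p ^ ν i - 1) + r0 ≤ r1 := by
  classical
  -- structure of finitely generated subgroups of `p ^ t Q`
  have hS : ∀ H : AddSubgroup Q, H ≤ (nsmulAddMonoidHom (p ^ t) : Q →+ Q).range →
      Module.Finite ℤ H → ∃ (d : ℕ) (ν : Fin d → ℕ) (x : Fin d → Q),
        (∀ a : Fin d → ℤ, (∑ i, a i • (p ^ t • x i) = 0) ↔ ∀ i, (p : ℤ) ^ ν i ∣ a i) ∧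
        (∀ h ∈ H, ∃ a : Fin d → ℤ, h = ∑ i, a i • (p ^ t • x i)) ∧
        Nat.card H = ∏ i, p ^ ν i ∧ ∑ i, (p ^ ν i - 1) + r0 ≤ r1 := by
    intro H hH hfg
    have htor : Module.IsTorsion' H (Submonoid.powers (p : ℤ)) := by
      rw [Submodule.isTorsion'_powers_iff]
      intro x
      obtain ⟨m, hm⟩ := htorQ x.1
      refine ⟨m, ?_⟩
      rw [← Nat.cast_pow, natCast_zsmul]
      exact Subtype.ext hm
    obtain ⟨d, ν, ⟨e⟩⟩ := Module.torsion_by_prime_power_decomposition
      (Nat.prime_iff_prime_int.1 hp).irreducible htor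
    let R' : Fin d → Type := fun i => ℤ ⧸ Submodule.span ℤ {(p : ℤ) ^ (ν i : ℕ)}
    let e' : H ≃ₗ[ℤ] (∀ i, R' i) := e.trans (DirectSum.linearEquivFunOnFintype ℤ (Fin d) R')
    have hlift : ∀ i : Fin d, ∃ c : Q, p ^ t • c =
        ((e'.symm (Pi.single i (Submodule.Quotient.mk 1)) : H) : Q) :=
      fun i => hH (e'.symm (Pi.single i (Submodule.Quotient.mk 1))).2
    choose x hx using hlift
    have hsum : ∀ a : Fin d → ℤ, ∑ i, a i • (p ^ t • x i) =
        ((e'.symm (fun i => Submodule.Quotient.mk (a i)) : H) : Q) := by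
      intro a
      have h1 : e'.symm (fun i => Submodule.Quotient.mk (a i)) =
          ∑ i, a i • e'.symm (Pi.single i (Submodule.Quotient.mk 1)) := by
        rw [LinearEquiv.symm_apply_eq, map_sum]
        funext j
        rw [Finset.sum_apply, Finset.sum_eq_single j]
        · rw [map_zsmul, LinearEquiv.apply_symm_apply, Pi.smul_apply, Pi.single_eq_same,
            ← Submodule.Quotient.mk_smul, smul_eq_mul, mul_one]
        · intro i _ hij
          rw [map_zsmul, LinearEquiv.apply_symm_apply, Pi.smul_apply,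
            Pi.single_eq_of_ne (Ne.symm hij), smul_zero]
        · intro h; exact absurd (Finset.mem_univ j) h
      rw [h1, AddSubgroup.val_finsetSum]
      refine Finset.sum_congr rfl fun i _ => ?_
      rw [hx i]
      rfl
    have hzero : ∀ a : Fin d → ℤ, (∑ i, a i • (p ^ t • x i) = 0) ↔
        ∀ i, (p : ℤ) ^ ν i ∣ a i := by
      intro a
      rw [hsum, ZeroMemClass.coe_eq_zero, LinearEquiv.symm_apply_eq, map_zero]
      constructor
      · intro h i
        have h1 := congrFun h i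
        rw [Pi.zero_apply] at h1
        obtain ⟨c, hc⟩ := Submodule.mem_span_singleton.1 ((Submodule.Quotient.mk_eq_zero _).1 h1)
        exact ⟨c, by rw [← hc, smul_eq_mul, mul_comm]⟩
      · intro h
        funext i
        obtain ⟨c, hc⟩ := h i
        refine (Submodule.Quotient.mk_eq_zero _).2 (Submodule.mem_span_singleton.2 ⟨c, ?_⟩)
        rw [hc, smul_eq_mul, mul_comm]
    refine ⟨d, ν, x, hzero, ?_, ?_, ?_⟩
    · intro h hh
      choose a ha using fun i => Submodule.Quotient.mk_surjective _ (e' ⟨h, hh⟩ i)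
      refine ⟨a, ?_⟩
      rw [hsum]
      have h1 : (⟨h, hh⟩ : H) = e'.symm (fun i => Submodule.Quotient.mk (a i)) := by
        rw [LinearEquiv.eq_symm_apply]
        funext i
        exact (ha i).symm
      exact congrArg Subtype.val h1
    · rw [Nat.card_congr e'.toEquiv, Nat.card_pi]
      refine Finset.prod_congr rfl fun i _ => ?_
      have h1 := Nat.card_congr (Int.quotientSpanEquivZMod ((p : ℤ) ^ ν i)).toEquiv
      rw [Nat.card_zmod, Int.natAbs_pow, Int.natAbs_natCast] at h1
      exact h1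
    · exact hineq d ν x (fun a ha => (hzero a).1 ha)
  -- finiteness of `p ^ t Q`
  set Qt : AddSubgroup Q := (nsmulAddMonoidHom (p ^ t) : Q →+ Q).range with hQt
  have hfinQt : Finite Qt := by
    by_contra hinf
    rw [not_finite_iff_infinite] at hinf
    set N := p ^ r1 with hN
    let em : Fin (N + 1) → Qt := fun i => Infinite.natEmbedding Qt i
    have hem : Function.Injective em :=
      (Infinite.natEmbedding Qt).injective.comp Fin.val_injective
    let H : AddSubgroup Q := AddSubgroup.closure (Set.range fun i => (em i : Q))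
    have hHle : H ≤ Qt := by
      rw [AddSubgroup.closure_le]
      rintro _ ⟨i, rfl⟩
      exact (em i).2
    have hfg : Module.Finite ℤ H := by
      have : AddGroup.FG H := AddGroup.closure_finite_fg _
      exact Module.Finite.iff_addGroup_fg.2 this
    have hHfin : Finite H := by
      refine Module.finite_of_fg_torsion H ?_
      intro y
      obtain ⟨m, hm⟩ := htorQ y.1
      refine ⟨⟨(p : ℤ) ^ m, mem_nonZeroDivisors_of_ne_zero
        (pow_ne_zero _ (by exact_mod_cast hp.ne_zero))⟩, ?_⟩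
      show ((p : ℤ) ^ m) • y = 0
      rw [← Nat.cast_pow, natCast_zsmul]
      exact Subtype.ext hm
    obtain ⟨d, ν, x, -, -, hcard, hle⟩ := hS H hHle hfg
    have h1 : N + 1 ≤ Nat.card H := by
      have h2 := Nat.card_le_card_of_injective
        (fun i : Fin (N + 1) => (⟨em i, AddSubgroup.subset_closure ⟨i, rfl⟩⟩ : H))
        (fun i j hij => hem (Subtype.ext (congrArg (fun z : H => (z : Q)) hij)))
      rwa [Nat.card_eq_fintype_card, Fintype.card_fin] at h2
    rw [hcard, Finset.prod_pow_eq_pow_sum] at h1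
    have h3 : ∑ i, ν i ≤ r1 := by
      refine le_trans (Finset.sum_le_sum fun i _ => ?_) (le_trans (Nat.le_add_right _ _) hle)
      exact Nat.le_sub_one_of_lt (Nat.lt_pow_self hp.one_lt)
    have h4 := Nat.pow_le_pow_right hp.pos h3
    omega
  obtain ⟨d, ν, x, hzero, hgen, -, hle⟩ := hS Qt le_rfl (Module.Finite.of_finite)
  exact ⟨d, ν, x, fun y => hgen (p ^ t • y) ⟨_, rfl⟩, hzero, hle⟩

end Pool.Agent.H12
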