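import Pool.Agent.H12.Alg

/-!
The `p`-group case and the Sylow reduction of the capitulation inequality.
-/

namespace Pool.Agent.H12

open Function Finset

universe u v

section Step

variable {G : Type v} [Group G] {A : Type u} [AddCommGroup A] [DistribMulAction G A]

/-- restriction of functions to a subgroup -/
def res (A : Type u) [AddCommGroup A] (N : Subgroup G) : (G → A) →+ (N → A) where
  toFun f := fun n => f n
  map_zero' := rfl
  map_add' _ _ := rfl

omit [DistribMulAction G A] in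
@[simp] theorem res_apply (N : Subgroup G) (f : G → A) (n : N) : res A N f n = f n := rfl

omit [DistribMulAction G A] in
theorem mem_ker_res {N : Subgroup G} {f : G → A} : f ∈ (res A N).ker ↔ ∀ n ∈ N, f n = 0 := by
  rw [AddMonoidHom.mem_ker]
  constructor
  · intro h n hn
    exact congrFun h ⟨n, hn⟩
  · intro h
    funext n
    exact h n n.2

theorem map_res_Z1 (N : Subgroup G) : (Z1 G A).map (res A N) ≤ Z1 N A := by
  rintro _ ⟨f, hf, rfl⟩ g h
  exact hf g h

theorem map_res_B1 (N : Subgroup G) : (B1 G A).map (res A N) = B1 N A := by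
  ext f
  constructor
  · rintro ⟨_, ⟨a, rfl⟩, rfl⟩
    exact ⟨a, rfl⟩
  · rintro ⟨a, rfl⟩
    exact ⟨_, ⟨a, rfl⟩, rfl⟩

/-- The part of `A^N` killed by the norm of `G/N`, where `g0` generates `G/N`. -/
def Cm (A : Type u) [AddCommGroup A] [DistribMulAction G A] (N : Subgroup G) (g0 : G) (p : ℕ) :
    AddSubgroup A where
  carrier := {a | (∀ n ∈ N, n • a = a) ∧ ∑ i ∈ range p, g0 ^ i • a = 0}
  zero_mem' := ⟨fun n _ => smul_zero n, by simp⟩
  add_mem' := by
    rintro a b ⟨h1, h2⟩ ⟨h3, h4⟩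
    refine ⟨fun n hn => by rw [smul_add, h1 n hn, h3 n hn], ?_⟩
    simp only [smul_add, sum_add_distrib, h2, h4, add_zero]
  neg_mem' := by
    rintro a ⟨h1, h2⟩
    refine ⟨fun n hn => by rw [smul_neg, h1 n hn], ?_⟩
    simp only [smul_neg, sum_neg_distrib, h2, neg_zero]

theorem smul_mem_Cm {N : Subgroup G} [N.Normal] {g0 : G} {p : ℕ} {a : A} (ha : a ∈ Cm A N g0 p) :
    g0 • a ∈ Cm A N g0 p := by
  obtain ⟨h1, h2⟩ := ha
  constructor
  · intro n hn
    have h3 : g0⁻¹ * n * g0 ∈ N := by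
      have := (inferInstance : N.Normal).conj_mem n hn g0⁻¹
      simpa using this
    have h4 : n • g0 • a = g0 • (g0⁻¹ * n * g0) • a := by
      rw [smul_smul, smul_smul]; congr 1; group
    rw [h4, h1 _ h3]
  · have h5 : ∑ i ∈ range p, g0 ^ i • g0 • a = g0 • ∑ i ∈ range p, g0 ^ i • a := by
      rw [smul_sum]
      refine sum_congr rfl fun i _ => ?_
      rw [smul_smul, smul_smul, ← pow_succ, ← pow_succ']
    rw [h5, h2, smul_zero]

/-- `g0 - 1` on `Cm`. -/
def dl (A : Type u) [AddCommGroup A] [DistribMulAction G A] (N : Subgroup G) [N.Normal] (g0 : G)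
    (p : ℕ) : Module.End ℤ (Cm A N g0 p) :=
  AddMonoidHom.toIntLinearMap
    { toFun := fun a => ⟨g0 • (a : A) - a, sub_mem (smul_mem_Cm a.2) a.2⟩
      map_zero' := by ext; simp
      map_add' := by
        intro a b
        ext
        push_cast
        rw [smul_add]; abel }

theorem dl_apply (N : Subgroup G) [N.Normal] (g0 : G) (p : ℕ) (a : Cm A N g0 p) :
    ((dl A N g0 p a : Cm A N g0 p) : A) = g0 • (a : A) - a := rfl

theorem dl_pow (N : Subgroup G) [N.Normal] (g0 : G) (p : ℕ) (a : Cm A N g0 p) (i : ℕ) :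
    ((((dl A N g0 p + 1) ^ i : Module.End ℤ (Cm A N g0 p)) a : Cm A N g0 p) : A) =
      g0 ^ i • (a : A) := by
  induction i with
  | zero => simp
  | succ i ih =>
    rw [pow_succ', Module.End.mul_apply, LinearMap.add_apply, AddSubgroup.coe_add, dl_apply, ih,
      Module.End.one_apply, ih, pow_succ', mul_smul]
    abel

theorem dl_sum (N : Subgroup G) [N.Normal] (g0 : G) (p : ℕ) :
    ∑ i ∈ range p, (dl A N g0 p + 1) ^ i = 0 := by
  ext a
  rw [LinearMap.sum_apply, AddSubgroup.val_finsetSum]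
  simp only [dl_pow]
  exact a.2.2

theorem kerpart (N : Subgroup G) [N.Normal] (p : ℕ) [hp : Fact p.Prime] (g0 : G)
    (hgen : ∀ g : G, ∃ i : ℕ, ∃ n ∈ N, g = g0 ^ i * n) (hgp : g0 ^ p ∈ N)
    (htf : ∀ a : A, p • a = 0 → a = 0) (hr : Module.rank ℤ A < Cardinal.aleph0) :
    (B1 G A ⊓ (res A N).ker).relIndex (Z1 G A ⊓ (res A N).ker) ≠ 0 ∧
    ((B1 G A ⊓ (res A N).ker).relIndex (Z1 G A ⊓ (res A N).ker)) ^ (p - 1) *
      p ^ Module.finrank ℤ (FixedPoints.addSubgroup G A) ≤
      p ^ Module.finrank ℤ (FixedPoints.addSubgroup N A) := by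
  have hpow : ∀ f ∈ Z1 G A, ∀ i : ℕ, f (g0 ^ i) = ∑ j ∈ range i, g0 ^ j • f g0 := by
    intro f hf i
    induction i with
    | zero => simpa using Z1_one hf
    | succ i ih => rw [pow_succ, hf, ih, sum_range_succ]
  have hev : ∀ f ∈ Z1 G A ⊓ (res A N).ker, f g0 ∈ Cm A N g0 p := by
    rintro f ⟨hf, hf0⟩
    replace hf0 := mem_ker_res.1 hf0
    constructor
    · intro n hn
      have h3 : g0⁻¹ * n * g0 ∈ N := by
        have := (inferInstance : N.Normal).conj_mem n hn g0⁻¹
        simpa using this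
      have h1 : f (n * g0) = n • f g0 := by rw [hf, hf0 n hn, zero_add]
      have h2 : f (g0 * (g0⁻¹ * n * g0)) = f g0 := by rw [hf, hf0 _ h3, smul_zero, add_zero]
      rw [← h1, ← h2]; congr 1; group
    · rw [← hpow f hf]; exact hf0 _ hgp
  have hinj : ∀ f ∈ Z1 G A ⊓ (res A N).ker, f g0 = 0 → f = 0 := by
    rintro f ⟨hf, hf0⟩ h
    replace hf0 := mem_ker_res.1 hf0
    funext g
    obtain ⟨i, n, hn, rfl⟩ := hgen g
    rw [hf, hf0 n hn, smul_zero, add_zero, hpow f hf, h]
    simp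
  let ev : (G → A) →+ A := Pi.evalAddMonoidHom (fun _ => A) g0
  have hker : Z1 G A ⊓ (res A N).ker ⊓ ev.ker = ⊥ := by
    rw [eq_bot_iff]
    rintro f ⟨hf, hf0⟩
    exact hinj f hf hf0
  have hle : B1 G A ⊓ (res A N).ker ≤ Z1 G A ⊓ (res A N).ker :=
    inf_le_inf_right _ (B1_le_Z1 G A)
  have hdev := relIndex_devissage ev hle
  rw [hker, AddSubgroup.relIndex_bot_right, mul_one] at hdev
  let ι : Cm A N g0 p →+ A := (Cm A N g0 p).subtype
  have hι : Injective ι := Subtype.val_injective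
  let R := (LinearMap.toAddMonoidHom (dl A N g0 p)).range
  -- ranks
  let f1 : Cm A N g0 p →+ FixedPoints.addSubgroup N A :=
    { toFun := fun c => ⟨c.1, fun n => c.2.1 n n.2⟩
      map_zero' := rfl
      map_add' := fun _ _ => rfl }
  let f2 : FixedPoints.addSubgroup G A →+ FixedPoints.addSubgroup N A :=
    { toFun := fun c => ⟨c.1, fun n => c.2 n⟩
      map_zero' := rfl
      map_add' := fun _ _ => rfl }
  have hrN : Module.rank ℤ (FixedPoints.addSubgroup N A) < Cardinal.aleph0 := by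
    refine lt_of_le_of_lt (LinearMap.rank_le_of_injective
      (FixedPoints.addSubgroup N A).subtype.toIntLinearMap Subtype.val_injective) hr
  obtain ⟨hr1, hr2, hr3⟩ := finrank_add_le f1 f2 (by
    rintro ⟨c, hc1, hc2⟩ ⟨d, hd⟩ h
    have h' : c + d = 0 := congrArg Subtype.val h
    have h1 : c = -d := eq_neg_of_add_eq_zero_left h'
    have h2 : ∀ i, g0 ^ i • c = c := by
      intro i
      have := hd (g0 ^ i)
      rw [h1, smul_neg, this]
    have h3 : c = 0 := by
      apply htf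
      rw [sum_congr rfl fun i _ => h2 i] at hc2
      simpa using hc2
    have h4 : d = 0 := by rw [h3] at h1; simpa using h1.symm
    exact ⟨Subtype.ext h3, Subtype.ext h4⟩) hrN
  have htfC : ∀ c : Cm A N g0 p, p • c = 0 → c = 0 := by
    intro c hc
    apply Subtype.ext
    apply htf
    have := congrArg Subtype.val hc
    simpa using this
  obtain ⟨hi1, hi2⟩ := cyc_index p (dl A N g0 p) (dl_sum N g0 p) htfC hr1
  have hRle : R.map ι ≤ (B1 G A ⊓ (res A N).ker).map ev := by
    rintro _ ⟨_, ⟨c, rfl⟩, rfl⟩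
    refine ⟨dd G A (c : A), ⟨⟨_, rfl⟩, mem_ker_res.2 ?_⟩, rfl⟩
    intro n hn
    rw [dd_apply, c.2.1 n hn, sub_self]
  have hZle : (Z1 G A ⊓ (res A N).ker).map ev ≤ (⊤ : AddSubgroup (Cm A N g0 p)).map ι := by
    rintro _ ⟨f, hf, rfl⟩
    exact ⟨⟨f g0, hev f hf⟩, trivial, rfl⟩
  have hidx : (R.map ι).relIndex ((⊤ : AddSubgroup (Cm A N g0 p)).map ι) = R.index := by
    rw [AddSubgroup.relIndex_map_map_of_injective _ _ hι, AddSubgroup.relIndex_top_right]
  have hne1 : (R.map ι).relIndex ((Z1 G A ⊓ (res A N).ker).map ev) ≠ 0 := by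
    intro h
    exact hi1 (hidx ▸ AddSubgroup.relIndex_eq_zero_of_le_right hZle h)
  have hne2 : ((B1 G A ⊓ (res A N).ker).map ev).relIndex ((Z1 G A ⊓ (res A N).ker).map ev) ≠ 0 :=
    fun h => hne1 (AddSubgroup.relIndex_eq_zero_of_le_left hRle h)
  have hbound : ((B1 G A ⊓ (res A N).ker).map ev).relIndex ((Z1 G A ⊓ (res A N).ker).map ev) ≤
      R.index :=
    (AddSubgroup.relIndex_le_of_le_left hRle hne1).trans
      (hidx ▸ AddSubgroup.relIndex_le_of_le_right hZle (hidx ▸ hi1))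
  rw [← hdev] at hne2 hbound
  refine ⟨hne2, ?_⟩
  calc _ ≤ R.index ^ (p - 1) * p ^ Module.finrank ℤ (FixedPoints.addSubgroup G A) :=
        Nat.mul_le_mul_right _ (Nat.pow_le_pow_left hbound _)
    _ ≤ p ^ Module.finrank ℤ (Cm A N g0 p) *
        p ^ Module.finrank ℤ (FixedPoints.addSubgroup G A) := Nat.mul_le_mul_right _ hi2
    _ ≤ _ := by
      rw [← pow_add]
      exact Nat.pow_le_pow_right hp.out.pos hr3

end Step


theorem finrank_fixed_le {G : Type v} [Group G] {A : Type u} [AddCommGroup A]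
    [DistribMulAction G A] (hr : Module.rank ℤ A < Cardinal.aleph0) :
    Module.finrank ℤ (FixedPoints.addSubgroup G A) ≤ Module.finrank ℤ A :=
  Cardinal.toNat_le_toNat (LinearMap.rank_le_of_injective
      (FixedPoints.addSubgroup G A).subtype.toIntLinearMap Subtype.val_injective) hr

theorem exists_step (p : ℕ) [hp : Fact p.Prime] (n : ℕ) (G : Type v) [Group G] [Finite G]
    (hG : Nat.card G = p ^ (n + 1)) : ∃ N : Subgroup G, N.Normal ∧ Nat.card N = p ^ n ∧
      ∃ g0 : G, (∀ g : G, ∃ i : ℕ, ∃ n ∈ N, g = g0 ^ i * n) ∧ g0 ^ p ∈ N := by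
  obtain ⟨N, hN⟩ := Sylow.exists_subgroup_card_pow_prime (G := G) p (n := n)
    (hG ▸ pow_dvd_pow p (Nat.le_succ n))
  have hidx : N.index = p := by
    have h1 := N.card_mul_index
    rw [hN, hG, pow_succ] at h1
    exact Nat.eq_of_mul_eq_mul_left (pow_pos hp.out.pos n) h1
  have hnormal : N.Normal := by
    apply Subgroup.normal_of_index_eq_minFac_card
    rw [hidx, hG, hp.out.pow_minFac (Nat.succ_ne_zero n)]
  refine ⟨N, hnormal, hN, ?_⟩
  have hcard : Nat.card (G ⧸ N) = p := hidx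
  have hfin : Finite (G ⧸ N) := Nat.finite_of_card_ne_zero (hcard ▸ hp.out.ne_zero)
  obtain ⟨x, hx⟩ : ∃ x : G ⧸ N, x ≠ 1 := by
    by_contra! h
    have : Subsingleton (G ⧸ N) := ⟨fun a b => by rw [h a, h b]⟩
    have h1 : Nat.card (G ⧸ N) = 1 := Nat.card_unique
    have := hp.out.one_lt
    omega
  obtain ⟨g0, rfl⟩ := QuotientGroup.mk_surjective x
  refine ⟨g0, ?_, ?_⟩
  · intro g
    obtain ⟨i, hi⟩ := mem_powers_of_prime_card hcard hx (g' := (g : G ⧸ N))
    have hi' : ((g0 ^ i : G) : G ⧸ N) = (g : G ⧸ N) := hi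
    refine ⟨i, (g0 ^ i)⁻¹ * g, QuotientGroup.eq.1 hi', by group⟩
  · rw [← QuotientGroup.eq_one_iff, QuotientGroup.mk_pow, ← hcard]
    exact pow_card_eq_one'

theorem pgroup_bound (p : ℕ) [hp : Fact p.Prime] (n : ℕ) : ∀ (G : Type v) [Group G] [Finite G]
    (_ : Nat.card G = p ^ n) (A : Type u) [AddCommGroup A] [DistribMulAction G A]
    (_ : ∀ a : A, p • a = 0 → a = 0) (_ : Module.rank ℤ A < Cardinal.aleph0),
    (B1 G A).relIndex (Z1 G A) ≠ 0 ∧
    ((B1 G A).relIndex (Z1 G A)) ^ (p - 1) *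
      p ^ Module.finrank ℤ (FixedPoints.addSubgroup G A) ≤ p ^ Module.finrank ℤ A := by
  induction n with
  | zero =>
    intro G _ _ hG A _ _ htf hr
    have hsub : Subsingleton G := (Nat.card_eq_one_iff_unique.1 (by simpa using hG)).1
    have hZ : Z1 G A = ⊥ := by
      rw [eq_bot_iff]
      intro f hf
      rw [AddSubgroup.mem_bot]
      funext g
      rw [Subsingleton.elim g 1, Z1_one hf]; rfl
    rw [hZ, AddSubgroup.relIndex_bot_right]
    refine ⟨one_ne_zero, ?_⟩
    rw [one_pow, one_mul]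
    exact Nat.pow_le_pow_right hp.out.pos (finrank_fixed_le hr)
  | succ n ih =>
    intro G _ _ hG A _ _ htf hr
    obtain ⟨N, hnormal, hN, g0, hgen, hgp⟩ := exists_step p n G hG
    obtain ⟨h1, h2⟩ := kerpart N p g0 hgen hgp htf hr
    obtain ⟨h3, h4⟩ := ih N hN A htf hr
    have hdev := relIndex_devissage (res A N) (B1_le_Z1 G A)
    rw [map_res_B1] at hdev
    have h5 : (B1 N A).relIndex ((Z1 G A).map (res A N)) ≠ 0 :=
      fun h => h3 (AddSubgroup.relIndex_eq_zero_of_le_right (map_res_Z1 N) h)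
    have h6 : (B1 N A).relIndex ((Z1 G A).map (res A N)) ≤ (B1 N A).relIndex (Z1 N A) :=
      AddSubgroup.relIndex_le_of_le_right (map_res_Z1 N) h3
    rw [hdev]
    refine ⟨mul_ne_zero h5 h1, ?_⟩
    rw [mul_pow, mul_assoc]
    calc _ ≤ ((B1 N A).relIndex ((Z1 G A).map (res A N))) ^ (p - 1) *
          p ^ Module.finrank ℤ (FixedPoints.addSubgroup N A) := Nat.mul_le_mul_left _ h2
      _ ≤ ((B1 N A).relIndex (Z1 N A)) ^ (p - 1) *
          p ^ Module.finrank ℤ (FixedPoints.addSubgroup N A) :=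
        Nat.mul_le_mul_right _ (Nat.pow_le_pow_left h6 _)
      _ ≤ _ := h4

section Sylow

variable {G : Type v} [Group G] {A : Type u} [AddCommGroup A] [DistribMulAction G A]

/-- cocycles whose class is killed by a power of `p` -/
def Zp (G : Type v) [Group G] (A : Type u) [AddCommGroup A] [DistribMulAction G A] (p : ℕ) :
    AddSubgroup (G → A) where
  carrier := {f | f ∈ Z1 G A ∧ ∃ n, p ^ n • f ∈ B1 G A}
  zero_mem' := ⟨zero_mem _, 0, by rw [smul_zero]; exact zero_mem _⟩
  add_mem' := by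
    rintro a b ⟨ha, n, hn⟩ ⟨hb, m, hm⟩
    refine ⟨add_mem ha hb, n + m, ?_⟩
    rw [smul_add]
    refine add_mem ?_ ?_
    · rw [add_comm n m, pow_add, mul_smul]; exact nsmul_mem hn _
    · rw [pow_add, mul_smul]; exact nsmul_mem hm _
  neg_mem' := by
    rintro a ⟨ha, n, hn⟩
    exact ⟨neg_mem ha, n, by rw [smul_neg]; exact neg_mem hn⟩

theorem index_smul_mem [Finite G] (P : Subgroup G) {f : G → A} (hf : f ∈ Z1 G A)
    (h0 : ∀ x ∈ P, f x = 0) : P.index • f ∈ B1 G A := by
  classical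
  have hconst : ∀ g x : G, x ∈ P → f (g * x) = f g := by
    intro g x hx
    rw [hf, h0 x hx, smul_zero, add_zero]
  let F : G ⧸ P → A := fun c => Quotient.liftOn' c f (by
    intro a b hab
    rw [QuotientGroup.leftRel_apply] at hab
    have := hconst a _ hab
    rw [mul_inv_cancel_left] at this
    exact this.symm)
  have hF : ∀ g : G, F (g : G ⧸ P) = f g := fun g => rfl
  have hfin : Fintype (G ⧸ P) := Fintype.ofFinite _
  let a : A := ∑ c : G ⧸ P, F c
  have key : ∀ x : G, a = P.index • f x + x • a := by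
    intro x
    have h1 : a = ∑ c : G ⧸ P, F (x • c) :=
      ((MulAction.bijective x).sum_comp F).symm
    have h2 : ∀ c : G ⧸ P, F (x • c) = f x + x • F c := by
      intro c
      induction c using QuotientGroup.induction_on with
      | H g => exact hf x g
    have h3 : ∑ c : G ⧸ P, F (x • c) = P.index • f x + x • a := by
      rw [sum_congr rfl fun c _ => h2 c, sum_add_distrib, ← smul_sum]
      congr 1
      rw [sum_const, card_univ, ← Nat.card_eq_fintype_card]
      rfl
    rw [← h3]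
    exact h1
  rw [mem_B1]
  refine ⟨-a, fun x => ?_⟩
  have := key x
  rw [Pi.smul_apply, smul_neg, sub_neg_eq_add]
  exact (eq_neg_add_iff_add_eq.2 (by rw [add_comm]; exact this.symm))

theorem sylow_bound (p : ℕ) [hp : Fact p.Prime] [Finite G]
    (htf : ∀ a : A, p • a = 0 → a = 0) (hr : Module.rank ℤ A < Cardinal.aleph0) :
    (B1 G A).relIndex (Zp G A p) ≠ 0 ∧
    ((B1 G A).relIndex (Zp G A p)) ^ (p - 1) *
      p ^ Module.finrank ℤ (FixedPoints.addSubgroup G A) ≤ p ^ Module.finrank ℤ A := by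
  classical
  obtain ⟨P, ⟨n, hn⟩, hPi⟩ : ∃ P : Subgroup G, (∃ n, Nat.card P = p ^ n) ∧ ¬ p ∣ P.index := by
    obtain ⟨P⟩ : Nonempty (Sylow p G) := inferInstance
    exact ⟨P, IsPGroup.iff_card.1 P.isPGroup', P.not_dvd_index⟩
  obtain ⟨h1, h2⟩ := pgroup_bound p n P hn A htf hr
  have hcop : Nat.Coprime p P.index :=
    (Nat.Prime.coprime_iff_not_dvd hp.out).2 hPi
  have hle : Zp G A p ⊓ (B1 P A).comap (res A P) ≤ B1 G A := by
    rintro f ⟨⟨hf, n, hn⟩, a, ha⟩
    have h8 : dd G A a ∈ B1 G A := ⟨a, rfl⟩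
    have h3 : f - dd G A a ∈ Z1 G A := sub_mem hf (B1_le_Z1 G A h8)
    have h4 : P.index • (f - dd G A a) ∈ B1 G A := by
      refine index_smul_mem P h3 ?_
      intro x hx
      have := congrFun ha ⟨x, hx⟩
      rw [Pi.sub_apply, sub_eq_zero]
      exact this.symm
    have h5 : p ^ n • (f - dd G A a) ∈ B1 G A := by
      rw [smul_sub]
      exact sub_mem hn (nsmul_mem h8 _)
    have h6 : IsCoprime ((p ^ n : ℕ) : ℤ) (P.index : ℤ) :=
      Nat.isCoprime_iff_coprime.2 (Nat.Coprime.pow_left n hcop)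
    obtain ⟨r, s, hrs⟩ := h6
    have h7 : f - dd G A a ∈ B1 G A := by
      have : f - dd G A a = r • (p ^ n • (f - dd G A a)) +
          s • (P.index • (f - dd G A a)) := by
        rw [← natCast_zsmul, ← natCast_zsmul (f - dd G A a) P.index, smul_smul,
          smul_smul, ← add_smul, hrs, one_smul]
      rw [this]
      exact add_mem (zsmul_mem h5 _) (zsmul_mem h4 _)
    have := add_mem h7 h8
    rwa [sub_add_cancel] at this
  have hmap : (Zp G A p).map (res A P) ≤ Z1 P A := by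
    rintro _ ⟨f, hf, rfl⟩
    exact map_res_Z1 P ⟨f, hf.1, rfl⟩
  have e1 : (B1 G A).relIndex (Zp G A p) = (B1 P A).relIndex ((Zp G A p).map (res A P)) := by
    rw [← AddSubgroup.relIndex_comap, ← AddSubgroup.inf_relIndex_right (B1 G A),
      ← AddSubgroup.inf_relIndex_right ((B1 P A).comap (res A P))]
    congr 1
    apply le_antisymm
    · refine le_inf ?_ inf_le_right
      rintro f ⟨⟨a, rfl⟩, -⟩
      exact ⟨a, rfl⟩
    · refine le_inf ?_ inf_le_right
      rw [inf_comm]; exact hle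
  have h3 : (B1 P A).relIndex ((Zp G A p).map (res A P)) ≠ 0 :=
    fun h => h1 (AddSubgroup.relIndex_eq_zero_of_le_right hmap h)
  have h4 : (B1 P A).relIndex ((Zp G A p).map (res A P)) ≤ (B1 P A).relIndex (Z1 P A) :=
    AddSubgroup.relIndex_le_of_le_right hmap h1
  rw [e1]
  refine ⟨h3, ?_⟩
  have h5 : Module.finrank ℤ (FixedPoints.addSubgroup G A) ≤
      Module.finrank ℤ (FixedPoints.addSubgroup P A) := by
    have hrP : Module.rank ℤ (FixedPoints.addSubgroup P A) < Cardinal.aleph0 :=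
      lt_of_le_of_lt (LinearMap.rank_le_of_injective
        (FixedPoints.addSubgroup P A).subtype.toIntLinearMap Subtype.val_injective) hr
    let f2 : FixedPoints.addSubgroup G A →+ FixedPoints.addSubgroup P A :=
      { toFun := fun c => ⟨c.1, fun n => c.2 n⟩
        map_zero' := rfl
        map_add' := fun _ _ => rfl }
    refine Cardinal.toNat_le_toNat (LinearMap.rank_le_of_injective f2.toIntLinearMap ?_) hrP
    intro a b hab
    have hab' : f2 a = f2 b := hab
    have h9 : (f2 a).1 = (f2 b).1 := by rw [hab']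
    exact Subtype.ext h9
  calc _ ≤ ((B1 P A).relIndex (Z1 P A)) ^ (p - 1) *
        p ^ Module.finrank ℤ (FixedPoints.addSubgroup P A) :=
      Nat.mul_le_mul (Nat.pow_le_pow_left h4 _) (Nat.pow_le_pow_right hp.out.pos h5)
    _ ≤ _ := h2

end Sylow

end Pool.Agent.H12
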