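import Pool.Agent.H12.PGroup

/-!
From a finite family of cocycles that vanish on a normal subgroup of finite index to a finite
group.
-/

namespace Pool.Agent.H12

open Function Finset

universe u v

section Quot

variable {G : Type v} [Group G] {M : Type u} [AddCommGroup M] [DistribMulAction G M]

theorem smul_mem_fixed (V : Subgroup G) [V.Normal] (g : G) {a : M}
    (ha : a ∈ FixedPoints.addSubgroup V M) : g • a ∈ FixedPoints.addSubgroup V M := by
  intro n
  have h3 : g⁻¹ * n * g ∈ V := by
    have := (inferInstance : V.Normal).conj_mem n n.2 g⁻¹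
    simpa using this
  have h4 : (n : G) • g • a = g • (g⁻¹ * n * g) • a := by
    rw [smul_smul, smul_smul]; congr 1; group
  have h5 : (g⁻¹ * n * g) • a = a := ha ⟨_, h3⟩
  rw [h5] at h4
  exact h4

/-- The action of the quotient on the fixed points. -/
@[reducible] noncomputable def qact (V : Subgroup G) [V.Normal] :
    DistribMulAction (G ⧸ V) (FixedPoints.addSubgroup V M) :=
  let sm : (G ⧸ V) → FixedPoints.addSubgroup V M → FixedPoints.addSubgroup V M := fun q a =>
    ⟨Quotient.liftOn' q (fun g : G => g • (a : M)) (by
      intro g h hgh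
      rw [QuotientGroup.leftRel_apply] at hgh
      have h1 : (g⁻¹ * h) • (a : M) = a := a.2 ⟨_, hgh⟩
      show g • (a : M) = h • (a : M)
      rw [← h1, smul_smul, mul_inv_cancel_left, h1]), by
      induction q using QuotientGroup.induction_on with
      | H g => exact smul_mem_fixed V g a.2⟩
  { smul := sm
    one_smul := fun a => Subtype.ext (one_smul G (a : M))
    mul_smul := by
      intro q r a
      induction q using QuotientGroup.induction_on with
      | H g =>
        induction r using QuotientGroup.induction_on with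
        | H h => exact Subtype.ext (mul_smul g h (a : M))
    smul_zero := by
      intro q
      induction q using QuotientGroup.induction_on with
      | H g => exact Subtype.ext (smul_zero g)
    smul_add := by
      intro q a b
      induction q using QuotientGroup.induction_on with
      | H g => exact Subtype.ext (smul_add g (a : M) (b : M)) }

theorem family_bound (V : Subgroup G) [V.Normal] [V.FiniteIndex] (p : ℕ) [hp : Fact p.Prime]
    (htf : ∀ a : M, (∀ g ∈ V, g • a = a) → p • a = 0 → a = 0)
    (hr : Module.rank ℤ (FixedPoints.addSubgroup V M) < Cardinal.aleph0)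
    {ι : Type*} [Fintype ι] (f : ι → G → M)
    (hcoc : ∀ i g h, f i (g * h) = f i g + g • f i h) (hV : ∀ i, ∀ g ∈ V, f i g = 0)
    (hpp : ∀ i, ∃ n : ℕ, ∃ a : M, ∀ g, p ^ n • f i g = g • a - a)
    (hne : ∀ i j, i ≠ j → ¬ ∃ a : M, ∀ g, f i g - f j g = g • a - a) :
    Fintype.card ι ^ (p - 1) * p ^ Module.finrank ℤ (FixedPoints.addSubgroup G M) ≤
      p ^ Module.finrank ℤ (FixedPoints.addSubgroup V M) := by
  classical
  letI : DistribMulAction (G ⧸ V) (FixedPoints.addSubgroup V M) := qact V
  have hmk : ∀ (g : G) (a : FixedPoints.addSubgroup V M),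
      ((((g : G ⧸ V) • a : FixedPoints.addSubgroup V M)) : M) = g • (a : M) := fun g a => rfl
  have hfin : Finite (G ⧸ V) := Subgroup.finite_quotient_of_finiteIndex
  have hmem : ∀ i g, f i g ∈ FixedPoints.addSubgroup V M := by
    intro i g n
    have h3 : g⁻¹ * n * g ∈ V := by
      have := (inferInstance : V.Normal).conj_mem n n.2 g⁻¹
      simpa using this
    have h1 : f i (n * g) = (n : G) • f i g := by rw [hcoc, hV i n n.2, zero_add]
    have h2 : f i (g * (g⁻¹ * n * g)) = f i g := by rw [hcoc, hV i _ h3, smul_zero, add_zero]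
    show (n : G) • f i g = f i g
    rw [← h1]
    conv_rhs => rw [← h2]
    congr 1; group
  let F : ι → (G ⧸ V) → FixedPoints.addSubgroup V M := fun i q =>
    Quotient.liftOn' q (fun g : G => (⟨f i g, hmem i g⟩ : FixedPoints.addSubgroup V M)) (by
      intro g h hgh
      rw [QuotientGroup.leftRel_apply] at hgh
      apply Subtype.ext
      have h2 : f i (g * (g⁻¹ * h)) = f i g := by rw [hcoc, hV i _ hgh, smul_zero, add_zero]
      rw [mul_inv_cancel_left] at h2
      exact h2.symm)
  have hF : ∀ i (g : G), ((F i (g : G ⧸ V) : FixedPoints.addSubgroup V M) : M) = f i g :=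
    fun i g => rfl
  have hFZ : ∀ i, F i ∈ Zp (G ⧸ V) (FixedPoints.addSubgroup V M) p := by
    intro i
    constructor
    · intro q r
      induction q using QuotientGroup.induction_on with
      | H g =>
        induction r using QuotientGroup.induction_on with
        | H h => exact Subtype.ext (hcoc i g h)
    · obtain ⟨n, a, ha⟩ := hpp i
      have haV : a ∈ FixedPoints.addSubgroup V M := by
        intro m
        have := ha m
        rw [hV i m m.2, smul_zero] at this
        exact (sub_eq_zero.1 this.symm)
      refine ⟨n, mem_B1.2 ⟨⟨a, haV⟩, ?_⟩⟩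
      intro q
      induction q using QuotientGroup.induction_on with
      | H g =>
        apply Subtype.ext
        exact ha g
  obtain ⟨h1, h2⟩ := sylow_bound (G := G ⧸ V) (A := FixedPoints.addSubgroup V M) p (by
    intro a ha
    apply Subtype.ext
    refine htf a (fun g hg => a.2 ⟨g, hg⟩) ?_
    exact congrArg Subtype.val ha) hr
  have hcard : Fintype.card ι ≤ (B1 (G ⧸ V) (FixedPoints.addSubgroup V M)).relIndex
      (Zp (G ⧸ V) (FixedPoints.addSubgroup V M) p) := by
    have hfinq : Finite (Zp (G ⧸ V) (FixedPoints.addSubgroup V M) p ⧸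
        (B1 (G ⧸ V) (FixedPoints.addSubgroup V M)).addSubgroupOf
          (Zp (G ⧸ V) (FixedPoints.addSubgroup V M) p)) :=
      Nat.finite_of_card_ne_zero h1
    rw [← Nat.card_eq_fintype_card]
    refine Nat.card_le_card_of_injective
      (β := Zp (G ⧸ V) (FixedPoints.addSubgroup V M) p ⧸
        (B1 (G ⧸ V) (FixedPoints.addSubgroup V M)).addSubgroupOf
          (Zp (G ⧸ V) (FixedPoints.addSubgroup V M) p))
      (fun i => QuotientAddGroup.mk ⟨F i, hFZ i⟩) ?_
    intro i j hij
    by_contra hcon
    apply hne i j hcon
    have h3 := QuotientAddGroup.eq.1 hij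
    rw [AddSubgroup.mem_addSubgroupOf] at h3
    obtain ⟨a, ha⟩ := mem_B1.1 h3
    refine ⟨-a, fun g => ?_⟩
    have h4 := congrArg Subtype.val (ha (g : G ⧸ V))
    have h5 : - f i g + f j g = g • (a : M) - a := h4
    rw [smul_neg, sub_neg_eq_add, ← neg_sub_neg, ← neg_inj]
    rw [← sub_eq_neg_add] at h5
    rw [neg_sub, neg_add, neg_neg, sub_neg_eq_add, add_comm (- f i g), ← sub_eq_add_neg, h5]
    abel
  have hfix : Module.finrank ℤ (FixedPoints.addSubgroup G M) ≤
      Module.finrank ℤ (FixedPoints.addSubgroup (G ⧸ V) (FixedPoints.addSubgroup V M)) := by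
    let f2 : FixedPoints.addSubgroup G M →+
        FixedPoints.addSubgroup (G ⧸ V) (FixedPoints.addSubgroup V M) :=
      { toFun := fun c => ⟨⟨c.1, fun n => c.2 n⟩, by
          intro q
          induction q using QuotientGroup.induction_on with
          | H g =>
            apply Subtype.ext
            exact c.2 g⟩
        map_zero' := rfl
        map_add' := fun _ _ => rfl }
    have hrP : Module.rank ℤ (FixedPoints.addSubgroup (G ⧸ V) (FixedPoints.addSubgroup V M)) <
        Cardinal.aleph0 :=
      lt_of_le_of_lt (LinearMap.rank_le_of_injective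
        (FixedPoints.addSubgroup (G ⧸ V)
          (FixedPoints.addSubgroup V M)).subtype.toIntLinearMap Subtype.val_injective) hr
    refine Cardinal.toNat_le_toNat (LinearMap.rank_le_of_injective f2.toIntLinearMap ?_) hrP
    intro a b hab
    have hab' : f2 a = f2 b := hab
    have h9 : (f2 a).1.1 = (f2 b).1.1 := by rw [hab']
    exact Subtype.ext h9
  calc _ ≤ _ := Nat.mul_le_mul (Nat.pow_le_pow_left hcard _)
        (Nat.pow_le_pow_right hp.out.pos hfix)
    _ ≤ _ := h2

end Quot

end Pool.Agent.H12
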