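import Pool.Agent.H12.Gal

/-!
The weighted rank `r_k(D) = ∑_{i<k} p^{-i} log |(p^i D)[p]|` of a finite abelian group and its
behaviour under the action of a `p`-group.  (The key inequality is due to helper11.)
-/

namespace Pool.Agent.H12

open Function Finset

universe u v

section RF

variable {X : Type u} [AddCommGroup X]

/-- log of the order -/
noncomputable def lg (D : AddSubgroup X) : ℝ := Real.log (Nat.card D)

/-- the `p`-torsion -/
def tors (X : Type u) [AddCommGroup X] (p : ℕ) : AddSubgroup X :=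
  (nsmulAddMonoidHom p : X →+ X).ker

theorem mem_tors {p : ℕ} {x : X} : x ∈ tors X p ↔ p • x = 0 := Iff.rfl

/-- multiplication by `p` -/
abbrev mp (X : Type u) [AddCommGroup X] (p : ℕ) : X →+ X := nsmulAddMonoidHom p

/-- the weighted rank -/
noncomputable def rkf (p : ℕ) : ℕ → AddSubgroup X → ℝ
  | 0, _ => 0
  | k + 1, D => lg (D ⊓ tors X p) + (1 / (p : ℝ)) * rkf p k (D.map (mp X p))

theorem rkf_succ (p k : ℕ) (D : AddSubgroup X) :
    rkf p (k + 1) D = lg (D ⊓ tors X p) + (1 / (p : ℝ)) * rkf p k (D.map (mp X p)) := rfl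

theorem card_dev {Y : Type*} [AddCommGroup Y] (φ : X →+ Y) (D : AddSubgroup X) :
    Nat.card D = Nat.card (D.map φ) * Nat.card (D ⊓ φ.ker : AddSubgroup X) := by
  have h := relIndex_devissage φ (bot_le : (⊥ : AddSubgroup X) ≤ D)
  rw [AddSubgroup.map_bot, bot_inf_eq, AddSubgroup.relIndex_bot_left,
    AddSubgroup.relIndex_bot_left, AddSubgroup.relIndex_bot_left] at h
  exact h

variable [Finite X]

theorem card_pos' (D : AddSubgroup X) : (0 : ℝ) < Nat.card D := by
  exact_mod_cast Nat.card_pos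

omit [Finite X] in
theorem lg_nonneg (D : AddSubgroup X) : 0 ≤ lg D :=
  Real.log_natCast_nonneg _

theorem lg_mono {D D' : AddSubgroup X} (h : D ≤ D') : lg D ≤ lg D' := by
  refine Real.log_le_log (card_pos' D) ?_
  exact_mod_cast Nat.card_mono (Set.toFinite _) h

theorem lg_dev {Y : Type*} [AddCommGroup Y] [Finite Y] (φ : X →+ Y) (D : AddSubgroup X) :
    lg D = lg (D.map φ) + lg (D ⊓ φ.ker) := by
  unfold lg
  rw [card_dev φ D, Nat.cast_mul, Real.log_mul (card_pos' _).ne' (card_pos' _).ne']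

theorem lg_mp (p : ℕ) (D : AddSubgroup X) : lg D = lg (D.map (mp X p)) + lg (D ⊓ tors X p) :=
  lg_dev (mp X p) D

omit [Finite X] in
theorem rkf_nonneg (p : ℕ) (k : ℕ) : ∀ D : AddSubgroup X, 0 ≤ rkf p k D := by
  induction k with
  | zero => intro D; exact le_rfl
  | succ k ih =>
    intro D
    rw [rkf_succ]
    have := ih (D.map (mp X p))
    have := lg_nonneg (D ⊓ tors X p)
    positivity

theorem rkf_mono (p : ℕ) (k : ℕ) : ∀ {D D' : AddSubgroup X}, D ≤ D' → rkf p k D ≤ rkf p k D' := by
  induction k with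
  | zero => intro D D' _; exact le_rfl
  | succ k ih =>
    intro D D' h
    rw [rkf_succ, rkf_succ]
    have h1 := ih (AddSubgroup.map_mono (f := mp X p) h)
    have h2 := lg_mono (inf_le_inf_right (tors X p) h)
    have : (0 : ℝ) ≤ 1 / (p : ℝ) := by positivity
    exact add_le_add h2 (mul_le_mul_of_nonneg_left h1 this)

theorem rkf_le_add (p : ℕ) (hp : 1 ≤ p) (k : ℕ) : ∀ {B B' : AddSubgroup X}, B ≤ B' →
    rkf p k B' ≤ rkf p k B + (lg B' - lg B) := by
  induction k with
  | zero =>
    intro B B' h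
    have := lg_mono h
    show (0 : ℝ) ≤ 0 + (lg B' - lg B)
    linarith
  | succ k ih =>
    intro B B' h
    rw [rkf_succ, rkf_succ]
    have h1 := ih (AddSubgroup.map_mono (f := mp X p) h)
    have h2 := lg_mono (AddSubgroup.map_mono (f := mp X p) h)
    have e1 := lg_mp p B
    have e2 := lg_mp p B'
    have hp0 : (0 : ℝ) < p := by exact_mod_cast hp
    have hp1 : 1 / (p : ℝ) ≤ 1 := by
      rw [div_le_one hp0]; exact_mod_cast hp
    have hp2 : (0 : ℝ) ≤ 1 / (p : ℝ) := by positivity
    have h3 : (1 / (p : ℝ)) * rkf p k (B'.map (mp X p)) ≤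
        (1 / (p : ℝ)) * rkf p k (B.map (mp X p)) +
        (1 / (p : ℝ)) * (lg (B'.map (mp X p)) - lg (B.map (mp X p))) := by
      rw [← mul_add]
      exact mul_le_mul_of_nonneg_left h1 hp2
    have h4 : (1 / (p : ℝ)) * (lg (B'.map (mp X p)) - lg (B.map (mp X p))) ≤
        lg (B'.map (mp X p)) - lg (B.map (mp X p)) :=
      mul_le_of_le_one_left (by linarith) hp1
    rw [e1, e2]
    linarith

/-- nilpotent operators: order bounded by the kernel -/
theorem lg_nilp (x : Module.End ℤ X) (m : ℕ) : ∀ V : AddSubgroup X,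
    (∀ v ∈ V, x v ∈ V) → (∀ v ∈ V, (x ^ m) v = 0) →
    lg V ≤ m * lg (V ⊓ (LinearMap.toAddMonoidHom x).ker) := by
  induction m with
  | zero =>
    intro V _ h0
    have : V = ⊥ := by
      rw [eq_bot_iff]
      intro v hv
      exact h0 v hv
    rw [this]
    simp [lg]
  | succ m ih =>
    intro V hV h0
    have h1 := lg_dev (LinearMap.toAddMonoidHom x) V
    have hle : V.map (LinearMap.toAddMonoidHom x) ≤ V := by
      rintro _ ⟨v, hv, rfl⟩
      exact hV v hv
    have h2 := ih (V.map (LinearMap.toAddMonoidHom x)) (by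
      rintro _ ⟨v, hv, rfl⟩
      exact ⟨x v, hV v hv, rfl⟩) (by
      rintro _ ⟨v, hv, rfl⟩
      have := h0 v hv
      rw [pow_succ] at this
      exact this)
    have h3 := lg_mono (inf_le_inf_right (LinearMap.toAddMonoidHom x).ker hle)
    have h4 : (m : ℝ) * lg (V.map (LinearMap.toAddMonoidHom x) ⊓ (LinearMap.toAddMonoidHom x).ker) ≤
        m * lg (V ⊓ (LinearMap.toAddMonoidHom x).ker) :=
      mul_le_mul_of_nonneg_left h3 (by positivity)
    push_cast
    linarith

/-- The cyclic step of the key inequality. -/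
theorem rkf_cyc (p : ℕ) [hp : Fact p.Prime] (x : Module.End ℤ X) (k : ℕ) :
    ∀ D : AddSubgroup X, (∀ d ∈ D, x d ∈ D) →
      (∀ d ∈ D, (∑ i ∈ range p, (x + 1) ^ i : Module.End ℤ X) (x d) = 0) →
      rkf p k D ≤ p * rkf p k (D ⊓ (LinearMap.toAddMonoidHom x).ker) := by
  induction k with
  | zero => intro D _ _; simp [rkf]
  | succ k ih =>
    intro D hD hN
    have hp0 : (0 : ℝ) < p := by exact_mod_cast hp.out.pos
    set κ := (LinearMap.toAddMonoidHom x).ker with hκ
    have hx : ∀ y : X, y ∈ κ ↔ x y = 0 := fun y => Iff.rfl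
    -- the group D2
    let xp : X →+ X := (LinearMap.toAddMonoidHom x).comp (mp X p)
    have hxp : ∀ y, xp y = x (p • y) := fun y => rfl
    let D2 : AddSubgroup X := D ⊓ xp.ker
    have e1 : D2.map (mp X p) = D.map (mp X p) ⊓ κ := by
      ext y
      constructor
      · rintro ⟨d, ⟨hd, hd2⟩, rfl⟩
        exact ⟨⟨d, hd, rfl⟩, hd2⟩
      · rintro ⟨⟨d, hd, rfl⟩, hd2⟩
        exact ⟨d, ⟨hd, hd2⟩, rfl⟩
    have e2 : D2 ⊓ tors X p = D ⊓ tors X p := by
      ext y
      constructor
      · rintro ⟨⟨h1, -⟩, h3⟩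
        exact ⟨h1, h3⟩
      · rintro ⟨h1, h3⟩
        refine ⟨⟨h1, ?_⟩, h3⟩
        show x (p • y) = 0
        rw [mem_tors.1 h3, map_zero]
    have e3 : D2.map (LinearMap.toAddMonoidHom x) =
        D.map (LinearMap.toAddMonoidHom x) ⊓ tors X p := by
      ext y
      constructor
      · rintro ⟨d, ⟨hd, hd2⟩, rfl⟩
        refine ⟨⟨d, hd, rfl⟩, ?_⟩
        have h1 : x (p • d) = 0 := hd2
        rw [map_nsmul] at h1
        exact h1
      · rintro ⟨⟨d, hd, rfl⟩, hd2⟩
        refine ⟨d, ⟨hd, ?_⟩, rfl⟩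
        show x (p • d) = 0
        rw [map_nsmul]
        exact hd2
    have e4 : D2 ⊓ κ = D ⊓ κ := by
      ext y
      constructor
      · rintro ⟨⟨h1, -⟩, h3⟩
        exact ⟨h1, h3⟩
      · rintro ⟨h1, h3⟩
        refine ⟨⟨h1, ?_⟩, h3⟩
        show x (p • y) = 0
        rw [map_nsmul, (hx y).1 h3, smul_zero]
    have l1 := lg_mp p D2
    rw [e1, e2] at l1
    have l2 := lg_dev (LinearMap.toAddMonoidHom x) D2
    rw [e3, ← hκ, e4] at l2
    have l3 := lg_mp p (D ⊓ κ)
    -- nilpotency on V
    set V : AddSubgroup X := D.map (LinearMap.toAddMonoidHom x) ⊓ tors X p with hV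
    have l4 : lg V ≤ ((p - 1 : ℕ) : ℝ) * lg (V ⊓ κ) := by
      apply lg_nilp
      · rintro _ ⟨⟨d, hd, rfl⟩, hv⟩
        refine ⟨⟨x d, hD d hd, rfl⟩, ?_⟩
        show p • x (x d) = 0
        have : p • (x d) = 0 := hv
        rw [← map_nsmul, this, map_zero]
      · rintro _ ⟨⟨d, hd, rfl⟩, hv⟩
        obtain ⟨t, ht⟩ := poly_t p
        have h1 := congrArg (Polynomial.aeval x) ht
        simp only [map_add, map_mul, map_sum, map_pow, Polynomial.aeval_X, map_one,
          map_natCast] at h1
        have h2 := DFunLike.congr_fun h1 (x d)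
        have h3 := hN d hd
        rw [h2, LinearMap.add_apply, Module.End.mul_apply] at h3
        have h4 : p • (x d) = 0 := hv
        have h5 : ((p : Module.End ℤ X)) (((1 + x * (Polynomial.aeval x) t : Module.End ℤ X)) (x d))
            = ((1 + x * (Polynomial.aeval x) t : Module.End ℤ X)) (p • x d) := by
          rw [map_nsmul]; simp
        rw [h5, h4, map_zero, zero_add] at h3
        exact h3
    have l5 : lg (V ⊓ κ) ≤ lg (D ⊓ κ ⊓ tors X p) := by
      apply lg_mono
      rintro _ ⟨⟨⟨d, hd, rfl⟩, hv⟩, hv2⟩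
      exact ⟨⟨hD d hd, hv2⟩, hv⟩
    have hp1 : ((p - 1 : ℕ) : ℝ) = p - 1 := by
      rw [Nat.cast_sub hp.out.one_le]; simp
    have l6 : lg V ≤ (p - 1 : ℝ) * lg (D ⊓ κ ⊓ tors X p) := by
      rw [← hp1]
      exact l4.trans (mul_le_mul_of_nonneg_left l5 (by positivity))
    -- induction hypothesis
    have h1 := ih (D.map (mp X p)) (by
      rintro _ ⟨d, hd, rfl⟩
      refine ⟨x d, hD d hd, ?_⟩
      show p • x d = x (p • d)
      rw [map_nsmul]) (by
      rintro _ ⟨d, hd, rfl⟩
      show (∑ i ∈ range p, (x + 1) ^ i : Module.End ℤ X) (x (p • d)) = 0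
      rw [map_nsmul, map_nsmul, hN d hd, smul_zero])
    have h2 : (D ⊓ κ).map (mp X p) ≤ D.map (mp X p) ⊓ κ := by
      rintro _ ⟨d, ⟨hd, hd2⟩, rfl⟩
      refine ⟨⟨d, hd, rfl⟩, ?_⟩
      show x (p • d) = 0
      rw [map_nsmul, (hx d).1 hd2, smul_zero]
    have h3 := rkf_le_add p hp.out.one_le k h2
    rw [rkf_succ, rkf_succ]
    have h4 : (1 / (p : ℝ)) * rkf p k (D.map (mp X p)) ≤ rkf p k (D.map (mp X p) ⊓ κ) := by
      rw [one_div, inv_mul_le_iff₀ hp0]
      exact h1
    have h5 : (p : ℝ) * (lg (D ⊓ κ ⊓ tors X p) +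
        1 / (p : ℝ) * rkf p k ((D ⊓ κ).map (mp X p))) =
        (p : ℝ) * lg (D ⊓ κ ⊓ tors X p) + rkf p k ((D ⊓ κ).map (mp X p)) := by
      field_simp
    rw [h5]
    linarith

/-- The key inequality for a `p`-group. -/
theorem rkf_group (p : ℕ) [hp : Fact p.Prime] (k : ℕ) (n : ℕ) : ∀ (G : Type v) [Group G] [Finite G]
    (_ : Nat.card G = p ^ n) [DistribMulAction G X] (D : AddSubgroup X),
    (∀ g : G, ∀ d ∈ D, g • d ∈ D) →
    rkf p k D ≤ p ^ n * rkf p k (D ⊓ FixedPoints.addSubgroup G X) := by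
  induction n with
  | zero =>
    intro G _ _ hG _ D hD
    have hsub : Subsingleton G := (Nat.card_eq_one_iff_unique.1 (by simpa using hG)).1
    have : D ≤ D ⊓ FixedPoints.addSubgroup G X := by
      refine le_inf le_rfl ?_
      intro d _ g
      rw [Subsingleton.elim g 1, one_smul]
    rw [pow_zero, one_mul]
    exact rkf_mono p k this
  | succ n ih =>
    intro G _ _ hG _ D hD
    obtain ⟨N, hnormal, hN, g0, hgen, hgp⟩ := exists_step p n G hG
    have h1 := ih N hN D (fun g d hd => hD g d hd)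
    let x : Module.End ℤ X := AddMonoidHom.toIntLinearMap
      { toFun := fun a => g0 • a - a
        map_zero' := by rw [smul_zero, sub_zero]
        map_add' := fun a b => by rw [smul_add]; abel }
    have hxa : ∀ a, x a = g0 • a - a := fun a => rfl
    have hxpow : ∀ (i : ℕ) (a : X), ((x + 1) ^ i : Module.End ℤ X) a = g0 ^ i • a := by
      intro i
      induction i with
      | zero => intro a; simp
      | succ i ih =>
        intro a
        rw [pow_succ', Module.End.mul_apply, LinearMap.add_apply, hxa, ih, Module.End.one_apply,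
          pow_succ', mul_smul]
        abel
    have hfix : ∀ d ∈ D ⊓ FixedPoints.addSubgroup N X, g0 • d ∈ D ⊓ FixedPoints.addSubgroup N X := by
      rintro d ⟨hd1, hd2⟩
      exact ⟨hD g0 d hd1, smul_mem_fixed N g0 hd2⟩
    have h2 := rkf_cyc p x k (D ⊓ FixedPoints.addSubgroup N X)
      (fun d hd => sub_mem (hfix d hd) hd) (by
      intro d hd
      rw [LinearMap.sum_apply]
      simp only [hxpow, hxa]
      have e1 : ∀ i, g0 ^ i • (g0 • d - d) = g0 ^ (i + 1) • d - g0 ^ i • d := by
        intro i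
        rw [smul_sub, smul_smul, ← pow_succ]
      rw [sum_congr rfl fun i _ => e1 i, sum_range_sub (fun i => g0 ^ i • d), pow_zero, one_smul]
      have : g0 ^ p • d = d := hd.2 ⟨_, hgp⟩
      rw [this, sub_self])
    have h3 : D ⊓ FixedPoints.addSubgroup N X ⊓ (LinearMap.toAddMonoidHom x).ker ≤
        D ⊓ FixedPoints.addSubgroup G X := by
      rintro d ⟨⟨hd1, hd2⟩, hd3⟩
      refine ⟨hd1, fun g => ?_⟩
      obtain ⟨i, m, hm, rfl⟩ := hgen g
      have h4 : m • d = d := hd2 ⟨m, hm⟩
      have h5 : g0 • d = d := sub_eq_zero.1 hd3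
      rw [mul_smul, h4]
      clear * - h5
      induction i with
      | zero => simp
      | succ i ih => rw [pow_succ, mul_smul, h5, ih]
    have h6 := rkf_mono p k h3
    have hp0 : (0 : ℝ) < p := by exact_mod_cast hp.out.pos
    calc rkf p k D ≤ p ^ n * rkf p k (D ⊓ FixedPoints.addSubgroup N X) := h1
      _ ≤ p ^ n * (p * rkf p k (D ⊓ FixedPoints.addSubgroup N X ⊓
          (LinearMap.toAddMonoidHom x).ker)) := mul_le_mul_of_nonneg_left h2 (by positivity)
      _ ≤ p ^ n * (p * rkf p k (D ⊓ FixedPoints.addSubgroup G X)) := by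
        refine mul_le_mul_of_nonneg_left (mul_le_mul_of_nonneg_left h6 hp0.le) (by positivity)
      _ = _ := by ring

/-- geometric weights -/
noncomputable def sg (p : ℕ) : ℕ → ℝ
  | 0 => 0
  | k + 1 => 1 + (1 / (p : ℝ)) * sg p k

theorem sg_eq (p : ℕ) (hp : 2 ≤ p) (k : ℕ) :
    sg p k = (p / (p - 1) : ℝ) * (1 - (1 / (p : ℝ)) ^ k) := by
  have hp' : (2 : ℝ) ≤ p := by exact_mod_cast hp
  have h0 : (p : ℝ) ≠ 0 := by positivity
  have h1 : (p : ℝ) - 1 ≠ 0 := by linarith
  induction k with
  | zero => simp [sg]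
  | succ k ih =>
    rw [sg, ih, pow_succ]
    field_simp
    ring

theorem sg_nonneg (p : ℕ) (k : ℕ) : 0 ≤ sg p k := by
  induction k with
  | zero => exact le_rfl
  | succ k ih => rw [sg]; positivity

/-- concavity -/
theorem rkf_ge (p : ℕ) (hp : 1 ≤ p) (k : ℕ) : ∀ D : AddSubgroup X, (∀ d ∈ D, p ^ k • d = 0) →
    sg p k * lg D ≤ k * rkf p k D ∧ lg D ≤ k * lg (D ⊓ tors X p) := by
  have hp0 : (0 : ℝ) < p := by exact_mod_cast hp
  induction k with
  | zero =>
    intro D hD
    have : D = ⊥ := by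
      rw [eq_bot_iff]
      intro d hd
      have := hD d hd
      rw [pow_zero, one_smul] at this
      exact this
    subst this
    simp [sg, rkf, lg]
  | succ k ih =>
    intro D hD
    obtain ⟨h1, h2⟩ := ih (D.map (mp X p)) (by
      rintro _ ⟨d, hd, rfl⟩
      show p ^ k • (p • d) = 0
      rw [smul_smul, ← pow_succ]
      exact hD d hd)
    have h3 := lg_mp p D
    have h4 : lg (D.map (mp X p) ⊓ tors X p) ≤ lg (D ⊓ tors X p) := by
      refine lg_mono (inf_le_inf_right _ ?_)
      rintro _ ⟨d, hd, rfl⟩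
      exact nsmul_mem hd p
    have h5 : (k : ℝ) * lg (D.map (mp X p) ⊓ tors X p) ≤ k * lg (D ⊓ tors X p) :=
      mul_le_mul_of_nonneg_left h4 (by positivity)
    have h6 : lg D ≤ ((k + 1 : ℕ) : ℝ) * lg (D ⊓ tors X p) := by
      push_cast
      linarith
    refine ⟨?_, h6⟩
    rw [rkf_succ, sg]
    push_cast
    rcases Nat.eq_zero_or_pos k with hk | hk
    · subst hk
      simp only [CharP.cast_eq_zero, zero_mul] at h2 h1
      have : lg D ≤ lg (D ⊓ tors X p) := by linarith
      simp [sg, rkf, this]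
    · have hk0 : (0 : ℝ) < k := by exact_mod_cast hk
      have hpi : (0 : ℝ) ≤ 1 / (p : ℝ) := by positivity
      have h7 : (1 / (p : ℝ)) * (sg p k * lg (D.map (mp X p))) ≤
          (1 / (p : ℝ)) * (k * rkf p k (D.map (mp X p))) := mul_le_mul_of_nonneg_left h1 hpi
      -- multiply by (k+1)/k
      have h8 : sg p k ≤ k := by
        have : ∀ j : ℕ, sg p j ≤ j := by
          intro j
          induction j with
          | zero => simp [sg]
          | succ j ihj =>
            rw [sg]
            have hp1 : 1 / (p : ℝ) ≤ 1 := by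
              rw [div_le_one hp0]; exact_mod_cast hp
            have := mul_le_mul hp1 ihj (sg_nonneg p j) (by norm_num)
            push_cast
            linarith
        exact this k
      set L := lg D
      set T := lg (D ⊓ tors X p)
      set L' := lg (D.map (mp X p))
      set R := rkf p k (D.map (mp X p))
      set s := sg p k
      set q := (1 / (p : ℝ)) with hq
      have hq1 : q ≤ 1 := by
        rw [hq, div_le_one hp0]; exact_mod_cast hp
      have hLT : L' = L - T := by linarith
      -- goal : (1 + q s) L ≤ (k+1) (T + q R)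
      have h9 : q * s * L' / k ≤ q * R := by
        rw [div_le_iff₀ hk0]
        calc q * s * L' = q * (s * L') := by ring
          _ ≤ q * (k * R) := h7
          _ = q * R * k := by ring
      have h10 : (1 + q * s) * L ≤ (k + 1) * (T + q * s * L' / k) := by
        rw [hLT]
        have h11 : (k + 1) * (T + q * s * (L - T) / k) - (1 + q * s) * L =
            ((k + 1) * T - L) * (1 - q * s / k) := by
          field_simp
          ring
        have h12 : 0 ≤ (k + 1) * T - L := by
          have := h6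
          push_cast at this
          linarith
        have h13 : 0 ≤ 1 - q * s / k := by
          rw [sub_nonneg, div_le_one hk0]
          calc q * s ≤ 1 * s := mul_le_mul_of_nonneg_right hq1 (sg_nonneg p k)
            _ ≤ k := by linarith
        have := mul_nonneg h12 h13
        linarith
      refine h10.trans ?_
      refine mul_le_mul_of_nonneg_left ?_ (by positivity)
      linarith

end RF

end Pool.Agent.H12
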