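import Pool.Agent.H12.RF

/-!
Upper bounds for the weighted rank, and the sharp inequality for `p`-groups.
-/

namespace Pool.Agent.H12

open Function Finset

universe u v

section Upper

theorem rkf_map_inj {X Y : Type u} [AddCommGroup X] [AddCommGroup Y] (φ : X →+ Y)
    (hφ : Injective φ) (p k : ℕ) : ∀ D : AddSubgroup X, rkf p k (D.map φ) = rkf p k D := by
  induction k with
  | zero => intro D; rfl
  | succ k ih =>
    intro D
    rw [rkf_succ, rkf_succ]
    have h1 : D.map φ ⊓ tors Y p = (D ⊓ tors X p).map φ := by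
      ext y
      constructor
      · rintro ⟨⟨d, hd, rfl⟩, h2⟩
        refine ⟨d, ⟨hd, ?_⟩, rfl⟩
        have h3 : p • φ d = 0 := h2
        rw [← map_nsmul] at h3
        exact hφ (h3.trans (map_zero _).symm)
      · rintro ⟨d, ⟨hd, h2⟩, rfl⟩
        refine ⟨⟨d, hd, rfl⟩, ?_⟩
        show p • φ d = 0
        rw [← map_nsmul, mem_tors.1 h2, map_zero]
    have h2 : (D.map φ).map (mp Y p) = (D.map (mp X p)).map φ := by
      ext y
      constructor
      · rintro ⟨_, ⟨d, hd, rfl⟩, rfl⟩
        exact ⟨p • d, ⟨d, hd, rfl⟩, map_nsmul φ p d⟩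
      · rintro ⟨_, ⟨d, hd, rfl⟩, rfl⟩
        exact ⟨φ d, ⟨d, hd, rfl⟩, (map_nsmul φ p d).symm⟩
    rw [h1, h2, ih]
    congr 1
    unfold lg
    congr 2
    exact (Nat.card_congr (AddSubgroup.equivMapOfInjective (D ⊓ tors X p) φ hφ).toEquiv).symm

theorem lg_pi {ι : Type} [Fintype ι] {Y : Type} [AddCommGroup Y] [Finite Y]
    (E : ι → AddSubgroup Y) : lg (AddSubgroup.pi Set.univ E) = ∑ i, lg (E i) := by
  unfold lg
  have h1 : Nat.card (AddSubgroup.pi Set.univ E) = ∏ i, Nat.card (E i) := by
    rw [← Nat.card_pi]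
    refine Nat.card_congr
      { toFun := fun f i => ⟨f.1 i, f.2 i (Set.mem_univ i)⟩
        invFun := fun f => ⟨fun i => (f i).1, fun i _ => (f i).2⟩
        left_inv := fun f => rfl
        right_inv := fun f => rfl }
  rw [h1, Nat.cast_prod, Real.log_prod]
  intro i _
  exact (card_pos' (E i)).ne'

theorem rkf_pi {ι : Type} [Fintype ι] {Y : Type} [AddCommGroup Y] [Finite Y] (p k : ℕ) :
    ∀ E : ι → AddSubgroup Y, rkf p k (AddSubgroup.pi Set.univ E) = ∑ i, rkf p k (E i) := by
  induction k with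
  | zero => intro E; simp [rkf]
  | succ k ih =>
    intro E
    have h1 : AddSubgroup.pi Set.univ E ⊓ tors (ι → Y) p =
        AddSubgroup.pi Set.univ (fun i => E i ⊓ tors Y p) := by
      ext y
      constructor
      · rintro ⟨h1, h2⟩ i hi
        exact ⟨h1 i hi, congrFun (mem_tors.1 h2) i⟩
      · intro h
        refine ⟨fun i hi => (h i hi).1, mem_tors.2 ?_⟩
        funext i
        exact (h i (Set.mem_univ i)).2
    have h2 : (AddSubgroup.pi Set.univ E).map (mp (ι → Y) p) =
        AddSubgroup.pi Set.univ (fun i => (E i).map (mp Y p)) := by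
      ext y
      constructor
      · rintro ⟨f, hf, rfl⟩ i hi
        exact ⟨f i, hf i hi, rfl⟩
      · intro h
        choose g hg1 hg2 using fun i => h i (Set.mem_univ i)
        refine ⟨g, fun i _ => hg1 i, ?_⟩
        funext i
        exact hg2 i
    rw [rkf_succ, h1, h2, ih, lg_pi, mul_sum, ← sum_add_distrib]
    rfl

theorem rkf_cyclic {Y : Type} [AddCommGroup Y] [Finite Y] (p : ℕ) [hp : Fact p.Prime]
    (hT : Nat.card (tors Y p) ≤ p) (k : ℕ) : ∀ E : AddSubgroup Y,
    rkf p k E ≤ (p / (p - 1) : ℝ) * Real.log p * (1 - 1 / (Nat.card E : ℝ)) := by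
  have hp2 : (2 : ℝ) ≤ p := by exact_mod_cast hp.out.two_le
  have hlog : 0 < Real.log p := Real.log_pos (by linarith)
  have hc : 0 ≤ (p / (p - 1) : ℝ) * Real.log p := by
    have : (0 : ℝ) < p - 1 := by linarith
    positivity
  have hpos : ∀ E : AddSubgroup Y, 0 ≤ 1 - 1 / (Nat.card E : ℝ) := by
    intro E
    rw [sub_nonneg, div_le_one (card_pos' E)]
    exact_mod_cast Nat.card_pos (α := E)
  induction k with
  | zero => intro E; exact mul_nonneg hc (hpos E)
  | succ k ih =>
    intro E
    rw [rkf_succ]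
    have h1 := ih (E.map (mp Y p))
    have h2 : Nat.card E = Nat.card (E.map (mp Y p)) * Nat.card (E ⊓ tors Y p : AddSubgroup Y) :=
      card_dev (mp Y p) E
    have h3 : Nat.card (E ⊓ tors Y p : AddSubgroup Y) = 1 ∨
        Nat.card (E ⊓ tors Y p : AddSubgroup Y) = p := by
      have h4 : IsPGroup p (Multiplicative (E ⊓ tors Y p : AddSubgroup Y)) := by
        intro x
        refine ⟨1, ?_⟩
        apply Multiplicative.toAdd.injective
        rw [toAdd_pow, toAdd_one, pow_one]
        apply Subtype.ext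
        exact (Multiplicative.toAdd x).2.2
      obtain ⟨m, hm⟩ := IsPGroup.iff_card.1 h4
      have hm' : Nat.card (E ⊓ tors Y p : AddSubgroup Y) = p ^ m := hm
      have h5 : Nat.card (E ⊓ tors Y p : AddSubgroup Y) ≤ p :=
        (Nat.card_mono (Set.toFinite _) (inf_le_right : E ⊓ tors Y p ≤ tors Y p)).trans hT
      rw [hm'] at h5 ⊢
      have h6 : m ≤ 1 := by
        by_contra hcon
        have : p ^ 2 ≤ p ^ m := Nat.pow_le_pow_right hp.out.pos (by omega)
        have h7 : p ^ 2 ≤ p := this.trans h5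
        have := hp.out.two_le
        nlinarith
      interval_cases m
      · left; rfl
      · right; exact pow_one p
    have hp0 : (0 : ℝ) < p := by linarith
    have hp1 : (0 : ℝ) < p - 1 := by linarith
    rcases h3 with h3 | h3
    · rw [h3, mul_one] at h2
      have h4 : lg (E ⊓ tors Y p) = 0 := by unfold lg; rw [h3]; simp
      rw [h4, zero_add]
      rw [← h2] at h1
      have h5 : 1 / (p : ℝ) ≤ 1 := by rw [div_le_one hp0]; linarith
      calc 1 / (p : ℝ) * rkf p k (E.map (mp Y p)) ≤ 1 * rkf p k (E.map (mp Y p)) :=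
            mul_le_mul_of_nonneg_right h5 (rkf_nonneg p k _)
        _ ≤ _ := by rw [one_mul]; exact h1
    · have h4 : lg (E ⊓ tors Y p) = Real.log p := by unfold lg; rw [h3]
      rw [h4]
      have h5 : (Nat.card E : ℝ) = Nat.card (E.map (mp Y p)) * p := by
        rw [h2, h3]; push_cast; ring
      have h6 := card_pos' (E.map (mp Y p))
      rw [h5]
      calc Real.log p + 1 / (p : ℝ) * rkf p k (E.map (mp Y p))
          ≤ Real.log p + 1 / (p : ℝ) * ((p / (p - 1) : ℝ) * Real.log p *
            (1 - 1 / (Nat.card (E.map (mp Y p)) : ℝ))) := by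
            have : (0 : ℝ) ≤ 1 / (p : ℝ) := by positivity
            linarith [mul_le_mul_of_nonneg_left h1 this]
        _ = _ := by
          field_simp
          ring

theorem card_tors_zmod (p k : ℕ) [hp : Fact p.Prime] : Nat.card (tors (ZMod (p ^ k)) p) ≤ p := by
  have : NeZero (p ^ k) := ⟨pow_ne_zero _ hp.out.ne_zero⟩
  have h := IsAddCyclic.card_nsmul_eq_zero_le (α := ZMod (p ^ k)) (n := p) hp.out.pos
  refine le_trans (le_of_eq ?_) h
  exact Nat.subtype_card _ (fun x => by simp [mem_tors])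

end Upper


section Main

theorem index_pow_range (p : ℕ) [hp : Fact p.Prime] {Y : Type u} [AddCommGroup Y]
    (htf : ∀ c : Y, p • c = 0 → c = 0) (hr : Module.rank ℤ Y < Cardinal.aleph0) (k : ℕ) :
    (mulp (C := Y) (p ^ k)).range.index ≠ 0 ∧
      (mulp (C := Y) (p ^ k)).range.index ≤ (p ^ k) ^ Module.finrank ℤ Y := by
  let δ : Module.End ℤ Y := (mulp (C := Y) p).toIntLinearMap
  have hδ : ∀ y, δ y = p • y := fun y => rfl
  have hinj : Injective δ := by
    rw [injective_iff_map_eq_zero]
    intro y hy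
    exact htf y hy
  have hpow : ∀ (j : ℕ) (y : Y), (δ ^ j) y = p ^ j • y := by
    intro j
    induction j with
    | zero => intro y; simp
    | succ j ih => intro y; rw [pow_succ', Module.End.mul_apply, hδ, ih, smul_smul, ← pow_succ']
  have h1 : (mulp (C := Y) (p ^ k)).range = (LinearMap.toAddMonoidHom (δ ^ k)).range := by
    ext y
    constructor
    · rintro ⟨z, rfl⟩
      exact ⟨z, hpow k z⟩
    · rintro ⟨z, rfl⟩
      exact ⟨z, (hpow k z).symm⟩
  have h2 : (LinearMap.toAddMonoidHom δ).range = (mulp (C := Y) p).range := rfl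
  obtain ⟨h3, h4⟩ := index_mulp_range (C := Y) p htf hr
  rw [h1, index_range_pow δ hinj, h2]
  refine ⟨pow_ne_zero _ h3, ?_⟩
  rw [← pow_mul, mul_comm k, pow_mul]
  exact Nat.pow_le_pow_left h4 k

/-- translation action on functions on a group -/
@[reducible] def actX (G : Type) [Group G] (ι : Type) (q : ℕ) :
    DistribMulAction G (ι → G → ZMod q) where
  smul h b := fun i g => b i (h⁻¹ * g)
  one_smul b := by funext i g; show b i (1⁻¹ * g) = b i g; rw [inv_one, one_mul]
  mul_smul h h' b := by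
    funext i g
    show b i ((h * h')⁻¹ * g) = b i (h'⁻¹ * (h⁻¹ * g))
    rw [mul_inv_rev, mul_assoc]
  smul_zero h := rfl
  smul_add h b c := rfl

variable {G : Type} [Group G] {A : Type u} [AddCommGroup A] [DistribMulAction G A]

/-- kernel of the norm -/
def normKer (G : Type) [Group G] [Fintype G] (A : Type u) [AddCommGroup A]
    [DistribMulAction G A] : AddSubgroup A where
  carrier := {a | ∑ g : G, g • a = 0}
  zero_mem' := by simp
  add_mem' := by
    intro a b ha hb
    show ∑ g : G, g • (a + b) = 0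
    simp only [smul_add, sum_add_distrib]
    rw [show ∑ g : G, g • a = 0 from ha, show ∑ g : G, g • b = 0 from hb, add_zero]
  neg_mem' := by
    intro a ha
    show ∑ g : G, g • (-a) = 0
    simp only [smul_neg, sum_neg_distrib]
    rw [show ∑ g : G, g • a = 0 from ha, neg_zero]

theorem mem_normKer [Fintype G] {a : A} : a ∈ normKer G A ↔ ∑ g : G, g • a = 0 := Iff.rfl

theorem coc_mem_normKer [Fintype G] {f : G → A} (hf : f ∈ Z1 G A) (g : G) :
    f g ∈ normKer G A := by
  rw [mem_normKer]
  have h1 : ∀ h : G, h • f g = f (h * g) - f h := by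
    intro h; rw [hf h g]; abel
  rw [sum_congr rfl fun h _ => h1 h, sum_sub_distrib, sub_eq_zero]
  exact Equiv.sum_comp (Equiv.mulRight g) f

theorem smul_mem_normKer [Fintype G] {a : A} (ha : a ∈ normKer G A) (h : G) :
    h • a ∈ normKer G A := by
  rw [mem_normKer] at ha ⊢
  have h1 : ∀ g : G, g • h • a = (g * h) • a := fun g => (mul_smul g h a).symm
  rw [sum_congr rfl fun g _ => h1 g, ← ha]
  exact Equiv.sum_comp (Equiv.mulRight h) (fun g => g • a)

theorem tf_pow {p : ℕ} (htf : ∀ a : A, p • a = 0 → a = 0) (k : ℕ) :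
    ∀ a : A, p ^ k • a = 0 → a = 0 := by
  induction k with
  | zero => intro a ha; simpa using ha
  | succ k ih =>
    intro a ha
    rw [pow_succ, mul_smul] at ha
    exact htf a (ih _ ha)

/-- The inequality at level `k`. -/
theorem sharp_level (p : ℕ) [hp : Fact p.Prime] (n : ℕ) [Fintype G] (hG : Nat.card G = p ^ n)
    (htf : ∀ a : A, p • a = 0 → a = 0) (hr : Module.rank ℤ (normKer G A) < Cardinal.aleph0)
    {ι : Type} [Fintype ι] (f : ι → G → A) (hf : ∀ i, f i ∈ Z1 G A) (ν : ι → ℕ)
    (hνn : ∀ i, ν i ≤ n)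
    (hν : ∀ a : ι → ℤ, (∑ i, a i • f i) ∈ B1 G A → ∀ i, (p : ℤ) ^ ν i ∣ a i) (k : ℕ)
    (hnk : n ≤ k) (hk : 1 ≤ k) :
    (1 - (1 / (p : ℝ)) ^ k) * ((Fintype.card ι : ℝ) * p ^ n - Fintype.card ι -
      Module.finrank ℤ (normKer G A)) ≤ ∑ i, ((p : ℝ) ^ n - (p : ℝ) ^ ν i) := by
  classical
  have hp2 : (2 : ℝ) ≤ p := by exact_mod_cast hp.out.two_le
  have hp0 : (0 : ℝ) < p := by linarith
  have hp1 : (0 : ℝ) < p - 1 := by linarith
  have hlog : 0 < Real.log p := Real.log_pos (by linarith)
  set q := p ^ k with hq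
  have hq0 : q ≠ 0 := pow_ne_zero _ hp.out.ne_zero
  have : NeZero q := ⟨hq0⟩
  set C := normKer G A with hC
  let φ1 : (ι → G → ℤ) →+ (ι → ℤ) :=
    { toFun := fun b i => ∑ g, b i g
      map_zero' := by funext i; simp
      map_add' := fun b c => by funext i; simp [sum_add_distrib] }
  let φ2 : (ι → G → ℤ) →+ C :=
    { toFun := fun b => ∑ i, ∑ g, b i g • (⟨f i g, coc_mem_normKer (hf i) g⟩ : C)
      map_zero' := by simp
      map_add' := fun b c => by simp [sum_add_distrib, add_smul] }
  let D1 : AddSubgroup (ι → G → ℤ) := (mulp (C := ι → ℤ) q).range.comap φ1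
  let D2 : AddSubgroup (ι → G → ℤ) := (mulp (C := C) q).range.comap φ2
  let Dt : AddSubgroup (ι → G → ℤ) := D1 ⊓ D2
  have hi1 : D1.index ≠ 0 ∧ D1.index ≤ q ^ Fintype.card ι := by
    obtain ⟨h1, h2⟩ := index_pow_range p (Y := ι → ℤ) (by
      intro c hc
      funext i
      have := congrFun hc i
      simpa [hp.out.ne_zero] using this) (by
      rw [rank_fun']
      exact Cardinal.natCast_lt_aleph0) k
    rw [Module.finrank_fintype_fun_eq_card] at h2
    rw [AddSubgroup.index_comap]
    rw [← AddSubgroup.relIndex_top_right] at h1 h2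
    exact ⟨fun h => h1 (AddSubgroup.relIndex_eq_zero_of_le_right le_top h),
      (AddSubgroup.relIndex_le_of_le_right le_top h1).trans h2⟩
  have hi2 : D2.index ≠ 0 ∧ D2.index ≤ q ^ Module.finrank ℤ C := by
    obtain ⟨h1, h2⟩ := index_pow_range p (Y := C) (by
      intro c hc
      apply Subtype.ext
      apply htf
      exact congrArg Subtype.val hc) hr k
    rw [AddSubgroup.index_comap]
    rw [← AddSubgroup.relIndex_top_right] at h1 h2
    exact ⟨fun h => h1 (AddSubgroup.relIndex_eq_zero_of_le_right le_top h),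
      (AddSubgroup.relIndex_le_of_le_right le_top h1).trans h2⟩
  have hi : Dt.index ≤ q ^ (Fintype.card ι + Module.finrank ℤ C) := by
    rw [pow_add]
    exact (AddSubgroup.index_inf_le (H := D1) (K := D2)).trans (Nat.mul_le_mul hi1.2 hi2.2)
  let red : (ι → G → ℤ) →+ (ι → G → ZMod q) :=
    { toFun := fun b i g => (b i g : ZMod q)
      map_zero' := by funext i g; simp
      map_add' := fun b c => by funext i g; simp }
  have hred : Surjective red := by
    intro x
    choose b hb using fun (i : ι) (g : G) => ZMod.intCast_surjective (x i g)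
    exact ⟨b, by funext i g; exact hb i g⟩
  have hker : red.ker ≤ Dt := by
    intro b hb
    have h1 : ∀ i g, (q : ℤ) ∣ b i g := by
      intro i g
      rw [← ZMod.intCast_zmod_eq_zero_iff_dvd]
      exact congrFun (congrFun hb i) g
    choose c hc using h1
    constructor
    · refine ⟨fun i => ∑ g, c i g, ?_⟩
      funext i
      show q • ∑ g, c i g = ∑ g, b i g
      rw [smul_sum]
      exact sum_congr rfl fun g _ => by rw [hc i g]; simp
    · refine ⟨∑ i, ∑ g, c i g • (⟨f i g, coc_mem_normKer (hf i) g⟩ : C), ?_⟩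
      show q • ∑ i, ∑ g, c i g • (⟨f i g, coc_mem_normKer (hf i) g⟩ : C) =
        ∑ i, ∑ g, b i g • (⟨f i g, coc_mem_normKer (hf i) g⟩ : C)
      rw [smul_sum]
      refine sum_congr rfl fun i _ => ?_
      rw [smul_sum]
      refine sum_congr rfl fun g _ => ?_
      rw [hc i g, mul_smul, natCast_zsmul]
  let D : AddSubgroup (ι → G → ZMod q) := Dt.map red
  have hDi : D.index = Dt.index := AddSubgroup.index_map_eq _ hred hker
  have hcardX : Nat.card (ι → G → ZMod q) = q ^ (Fintype.card ι * p ^ n) := by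
    rw [Nat.card_eq_fintype_card, Fintype.card_fun, Fintype.card_fun, ZMod.card,
      ← Nat.card_eq_fintype_card (α := G), hG, ← pow_mul, mul_comm]
  have hlgD : (k : ℝ) * Real.log p * ((Fintype.card ι : ℝ) * p ^ n - Fintype.card ι -
      Module.finrank ℤ C) ≤ lg D := by
    have h1 := D.card_mul_index
    rw [hcardX, hDi] at h1
    have h2 : q ^ (Fintype.card ι * p ^ n) ≤
        Nat.card D * q ^ (Fintype.card ι + Module.finrank ℤ C) := by
      rw [← h1]; exact Nat.mul_le_mul_left _ hi
    have h3 : ((q : ℝ)) ^ (Fintype.card ι * p ^ n) ≤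
        Nat.card D * (q : ℝ) ^ (Fintype.card ι + Module.finrank ℤ C) := by exact_mod_cast h2
    have hq1 : (0 : ℝ) < q := by exact_mod_cast Nat.pos_of_ne_zero hq0
    have h4 := Real.log_le_log (by positivity) h3
    rw [Real.log_mul (card_pos' D).ne' (by positivity), Real.log_pow, Real.log_pow] at h4
    have h5 : Real.log (q : ℝ) = k * Real.log p := by
      rw [hq]; push_cast; rw [Real.log_pow]
    rw [h5] at h4
    push_cast at h4
    unfold lg
    linarith
  -- the action
  let _ := actX G ι q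
  have hsm : ∀ (h : G) (x : ι → G → ZMod q) (i : ι) (g : G), (h • x) i g = x i (h⁻¹ * g) :=
    fun _ _ _ _ => rfl
  have hstab : ∀ h : G, ∀ x ∈ D, h • x ∈ D := by
    rintro h _ ⟨b, ⟨hb1, hb2⟩, rfl⟩
    obtain ⟨a, ha⟩ := hb1
    obtain ⟨c, hc⟩ := hb2
    have ha' : ∀ i, ∑ g, b i g = q • a i := fun i => (congrFun ha i).symm
    have hc' : ∑ i, ∑ g, b i g • f i g = q • (c : A) := by
      have := congrArg Subtype.val hc
      simp only [φ2, mulp_apply, AddMonoidHom.coe_mk, ZeroHom.coe_mk] at this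
      push_cast at this
      exact this.symm
    refine ⟨fun i g => b i (h⁻¹ * g), ⟨⟨a, ?_⟩, ⟨?_, ?_⟩⟩, rfl⟩
    · funext i
      show q • a i = ∑ g, b i (h⁻¹ * g)
      rw [← ha' i]
      exact (Equiv.sum_comp (Equiv.mulLeft h⁻¹) (b i)).symm
    · exact ∑ i, a i • (⟨f i h, coc_mem_normKer (hf i) h⟩ : C) + ⟨h • (c : A), smul_mem_normKer c.2 h⟩
    · apply Subtype.ext
      show ((q • (∑ i, a i • (⟨f i h, coc_mem_normKer (hf i) h⟩ : C) +
        ⟨h • (c : A), smul_mem_normKer c.2 h⟩) : C) : A) =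
        ((∑ i, ∑ g, b i (h⁻¹ * g) • (⟨f i g, coc_mem_normKer (hf i) g⟩ : C) : C) : A)
      push_cast
      have e1 : ∀ i, ∑ g, b i (h⁻¹ * g) • f i g = ∑ g, b i g • f i (h * g) := by
        intro i
        rw [← Equiv.sum_comp (Equiv.mulLeft h) (fun g => b i (h⁻¹ * g) • f i g)]
        refine sum_congr rfl fun g _ => ?_
        simp
      rw [sum_congr rfl fun i _ => e1 i]
      have e2 : ∀ i, ∑ g, b i g • f i (h * g) = q • (a i • f i h) + h • ∑ g, b i g • f i g := by
        intro i
        have : ∀ g, b i g • f i (h * g) = b i g • f i h + h • (b i g • f i g) := by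
          intro g
          rw [hf i h g, smul_add, smul_comm (b i g) h]
        rw [sum_congr rfl fun g _ => this g, sum_add_distrib, ← sum_smul, ha' i, ← smul_sum,
          smul_assoc]
      rw [sum_congr rfl fun i _ => e2 i, sum_add_distrib, ← smul_sum, ← smul_sum, hc', smul_add,
        smul_comm q h]
  have hgrp := rkf_group p k n G hG D hstab
  -- fixed points
  let E : ι → AddSubgroup (ZMod q) := fun i =>
    AddSubgroup.zmultiples (((p ^ (k - n + ν i) : ℕ) : ZMod q))
  let cst : (ι → ZMod q) →+ (ι → G → ZMod q) :=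
    { toFun := fun β i _ => β i
      map_zero' := rfl
      map_add' := fun _ _ => rfl }
  have hcst : Injective cst := by
    intro β β' h
    funext i
    exact congrFun (congrFun h i) 1
  have hfix : D ⊓ FixedPoints.addSubgroup G (ι → G → ZMod q) ≤
      (AddSubgroup.pi Set.univ E).map cst := by
    rintro _ ⟨⟨b, hb, rfl⟩, hinv⟩
    have h1 : ∀ i g, ((b i g : ℤ) : ZMod q) = ((b i 1 : ℤ) : ZMod q) := by
      intro i g
      have h2 := hinv g
      have h3 := congrFun (congrFun h2 i) g
      rw [hsm, inv_mul_cancel] at h3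
      exact h3.symm
    let b' : ι → G → ℤ := fun i _ => b i 1
    have hb' : b' ∈ Dt := by
      have h2 : b' - b ∈ red.ker := by
        rw [AddMonoidHom.mem_ker]
        funext i g
        show ((b' i g - b i g : ℤ) : ZMod q) = 0
        push_cast
        rw [h1 i g]
        exact sub_self _
      have h3 := add_mem (hker h2) hb
      rwa [sub_add_cancel] at h3
    obtain ⟨⟨a, ha⟩, ⟨c, hc⟩⟩ := hb'
    have ha' : ∀ i, (p ^ n : ℕ) * b i 1 = q * a i := by
      intro i
      have h2 : q • a i = ∑ g : G, b' i g := congrFun ha i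
      have h3 : ∑ g : G, b' i g = (Fintype.card G : ℤ) * b i 1 := by
        show ∑ g : G, b i 1 = _
        rw [sum_const, card_univ]
        simp
      rw [h3, ← Nat.card_eq_fintype_card, hG] at h2
      rw [← h2]
      simp
    have hqn : q = p ^ n * p ^ (k - n) := by rw [hq, ← pow_add]; congr 1; omega
    have hβ : ∀ i, b i 1 = (p ^ (k - n) : ℕ) * a i := by
      intro i
      have h2 := ha' i
      rw [hqn] at h2
      have h3 : ((p ^ n : ℕ) : ℤ) ≠ 0 := by
        exact_mod_cast pow_ne_zero n hp.out.ne_zero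
      apply mul_left_cancel₀ h3
      rw [h2]
      push_cast
      ring
    have hc' : ∑ i, ∑ g, b i 1 • f i g = q • (c : A) := by
      have := congrArg Subtype.val hc
      simp only [φ2, mulp_apply, AddMonoidHom.coe_mk, ZeroHom.coe_mk] at this
      push_cast at this
      exact this.symm
    have hS : ∑ i, a i • ∑ g, f i g = p ^ n • (c : A) := by
      have h2 : p ^ (k - n) • (∑ i, a i • ∑ g, f i g - p ^ n • (c : A)) = 0 := by
        rw [smul_sub, smul_smul, mul_comm (p ^ (k - n)), ← hqn, ← hc', smul_sum, sub_eq_zero]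
        refine sum_congr rfl fun i _ => ?_
        rw [hβ i, ← smul_sum, mul_smul, natCast_zsmul]
      exact sub_eq_zero.1 (tf_pow htf _ _ h2)
    have hhS : ∀ i h, h • ∑ g, f i g = ∑ g, f i g - p ^ n • f i h := by
      intro i h
      have h2 : ∀ g, h • f i g = f i (h * g) - f i h := by
        intro g; rw [hf i h g]; abel
      rw [smul_sum, sum_congr rfl fun g _ => h2 g, sum_sub_distrib, sum_const, card_univ,
        ← Nat.card_eq_fintype_card, hG]
      congr 1
      exact Equiv.sum_comp (Equiv.mulLeft h) (f i)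
    have hB : (∑ i, a i • f i) ∈ B1 G A := by
      rw [mem_B1]
      refine ⟨-(c : A), fun h => ?_⟩
      have h2 : p ^ n • ((∑ i, a i • f i) h - (h • (-(c : A)) - -(c : A))) = 0 := by
        rw [smul_sub, Finset.sum_apply, smul_sum]
        have h3 : ∀ i, p ^ n • (a i • f i) h = a i • (∑ g, f i g) - h • (a i • ∑ g, f i g) := by
          intro i
          rw [smul_comm h (a i), hhS i h, smul_sub, Pi.smul_apply, smul_comm (p ^ n) (a i)]
          abel
        rw [sum_congr rfl fun i _ => h3 i, sum_sub_distrib, ← smul_sum, hS, smul_sub, smul_neg,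
          smul_neg, smul_neg, smul_comm h (p ^ n)]
        abel
      exact sub_eq_zero.1 (tf_pow htf _ _ h2)
    have hdiv := hν a hB
    choose e he using hdiv
    refine ⟨fun i => ((b i 1 : ℤ) : ZMod q), ?_, ?_⟩
    · intro i _
      refine ⟨e i, ?_⟩
      show e i • (((p ^ (k - n + ν i) : ℕ) : ZMod q)) = ((b i 1 : ℤ) : ZMod q)
      rw [hβ i, he i, zsmul_eq_mul]
      push_cast
      ring
    · funext i g
      exact (h1 i g).symm
  have hup : rkf p k (D ⊓ FixedPoints.addSubgroup G (ι → G → ZMod q)) ≤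
      ∑ i, (p / (p - 1) : ℝ) * Real.log p * (1 - 1 / (p : ℝ) ^ (n - ν i)) := by
    refine (rkf_mono p k hfix).trans ?_
    rw [rkf_map_inj cst hcst, rkf_pi]
    refine sum_le_sum fun i _ => ?_
    refine (rkf_cyclic p (card_tors_zmod p k) k (E i)).trans ?_
    have hcE : Nat.card (E i) ≤ p ^ (n - ν i) := by
      rw [Nat.card_zmultiples]
      apply Nat.le_of_dvd (pow_pos hp.out.pos _)
      apply addOrderOf_dvd_of_nsmul_eq_zero
      rw [nsmul_eq_mul, ← Nat.cast_mul, ← pow_add]
      have : n - ν i + (k - n + ν i) = k := by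
        have := hνn i
        omega
      rw [this]
      exact ZMod.natCast_self q
    have hc : 0 ≤ (p / (p - 1) : ℝ) * Real.log p := by positivity
    refine mul_le_mul_of_nonneg_left ?_ hc
    have h2 : (Nat.card (E i) : ℝ) ≤ (p : ℝ) ^ (n - ν i) := by exact_mod_cast hcE
    have := one_div_le_one_div_of_le (card_pos' (E i)) h2
    linarith
  obtain ⟨hge, -⟩ := rkf_ge p hp.out.one_le k D (by
    intro x _
    funext i g
    show p ^ k • x i g = 0
    rw [nsmul_eq_mul]
    simp [hq.symm])
  have hsg := sg_eq p hp.out.two_le k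
  have hk0 : (0 : ℝ) < k := by exact_mod_cast hk
  set s : ℝ := (Fintype.card ι : ℝ) * p ^ n - Fintype.card ι - Module.finrank ℤ C with hs
  have h1 : sg p k * (k * Real.log p * s) ≤ k * ((p : ℝ) ^ n *
      ∑ i, (p / (p - 1) : ℝ) * Real.log p * (1 - 1 / (p : ℝ) ^ (n - ν i))) := by
    calc sg p k * (k * Real.log p * s) ≤ sg p k * lg D :=
          mul_le_mul_of_nonneg_left hlgD (sg_nonneg p k)
      _ ≤ k * rkf p k D := hge
      _ ≤ _ := by
        refine mul_le_mul_of_nonneg_left (hgrp.trans ?_) hk0.le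
        exact mul_le_mul_of_nonneg_left hup (by positivity)
  have h2 : (p : ℝ) ^ n * ∑ i, (p / (p - 1) : ℝ) * Real.log p * (1 - 1 / (p : ℝ) ^ (n - ν i)) =
      (p / (p - 1) : ℝ) * Real.log p * ∑ i, ((p : ℝ) ^ n - (p : ℝ) ^ ν i) := by
    rw [mul_sum, mul_sum]
    refine sum_congr rfl fun i _ => ?_
    have h3 : (p : ℝ) ^ n = (p : ℝ) ^ (n - ν i) * (p : ℝ) ^ ν i := by
      rw [← pow_add]
      congr 1
      have := hνn i
      omega
    rw [h3]
    field_simp
  rw [h2, hsg] at h1
  have h3 : (0 : ℝ) < k * ((p / (p - 1) : ℝ) * Real.log p) := by positivity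
  refine le_of_mul_le_mul_left ?_ h3
  calc k * ((p / (p - 1) : ℝ) * Real.log p) * ((1 - (1 / (p : ℝ)) ^ k) * s) =
        (p / (p - 1) : ℝ) * (1 - (1 / (p : ℝ)) ^ k) * (k * Real.log p * s) := by ring
    _ ≤ _ := h1
    _ = _ := by ring

/-- The sharp inequality for a `p`-group. -/
theorem sharp_pgroup (p : ℕ) [hp : Fact p.Prime] (n : ℕ) [Finite G] (hG : Nat.card G = p ^ n)
    (htf : ∀ a : A, p • a = 0 → a = 0) (hr : Module.rank ℤ A < Cardinal.aleph0)
    {ι : Type} [Fintype ι] (f : ι → G → A) (hf : ∀ i, f i ∈ Z1 G A) (ν : ι → ℕ)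
    (hν : ∀ a : ι → ℤ, (∑ i, a i • f i) ∈ B1 G A → ∀ i, (p : ℤ) ^ ν i ∣ a i) :
    ∑ i, (p ^ ν i - 1) + Module.finrank ℤ (FixedPoints.addSubgroup G A) ≤
      Module.finrank ℤ A := by
  classical
  have _ : Fintype G := Fintype.ofFinite G
  have hνn : ∀ i, ν i ≤ n := by
    intro i
    have h1 := hν (Pi.single i ((p ^ n : ℕ) : ℤ)) (by
      have h2 : ∑ j, (Pi.single i ((p ^ n : ℕ) : ℤ) : ι → ℤ) j • f j = p ^ n • f i := by
        rw [sum_eq_single i]
        · rw [Pi.single_eq_same, natCast_zsmul]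
        · intro j _ hj
          rw [Pi.single_eq_of_ne hj, zero_smul]
        · intro h; exact absurd (mem_univ i) h
      rw [h2]
      have h3 := index_smul_mem (⊥ : Subgroup G) (hf i) (by
        intro x hx
        rw [Subgroup.mem_bot.1 hx]
        exact Z1_one (hf i))
      rwa [Subgroup.index_bot, hG] at h3) i
    rw [Pi.single_eq_same] at h1
    have h4 : p ^ ν i ∣ p ^ n := by exact_mod_cast h1
    exact (Nat.pow_dvd_pow_iff_le_right hp.out.one_lt).1 h4
  obtain ⟨hrC, -, hrk⟩ := finrank_add_le (normKer G A).subtype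
    (FixedPoints.addSubgroup G A).subtype (by
    rintro ⟨c, hc⟩ ⟨d, hd⟩ h
    have h' : c + d = 0 := h
    have h1 : c = -d := eq_neg_of_add_eq_zero_left h'
    have h2 : ∀ g : G, g • c = c := by
      intro g
      have := hd g
      rw [h1, smul_neg, this]
    have h3 : c = 0 := by
      apply tf_pow htf n
      rw [mem_normKer, sum_congr rfl fun g _ => h2 g, sum_const, card_univ,
        ← Nat.card_eq_fintype_card, hG] at hc
      exact hc
    have h4 : d = 0 := by rw [h3] at h1; simpa using h1.symm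
    exact ⟨Subtype.ext h3, Subtype.ext h4⟩) hr
  refine le_trans (Nat.add_le_add_right ?_ _) hrk
  -- limit
  have hp2 : (2 : ℝ) ≤ p := by exact_mod_cast hp.out.two_le
  set s : ℝ := (Fintype.card ι : ℝ) * p ^ n - Fintype.card ι -
    Module.finrank ℤ (normKer G A) with hs
  have hlim : Filter.Tendsto (fun k : ℕ => (1 - (1 / (p : ℝ)) ^ k) * s) Filter.atTop
      (nhds ((1 - 0) * s)) := by
    refine Filter.Tendsto.mul_const _ (Filter.Tendsto.const_sub _ ?_)
    refine tendsto_pow_atTop_nhds_zero_of_lt_one (by positivity) ?_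
    rw [div_lt_one (by linarith)]
    linarith
  have hle : (1 - 0) * s ≤ ∑ i, ((p : ℝ) ^ n - (p : ℝ) ^ ν i) := by
    refine le_of_tendsto hlim ?_
    filter_upwards [Filter.eventually_ge_atTop (n + 1)] with k hk
    exact sharp_level p n hG htf hrC f hf ν hνn hν k (by omega) (by omega)
  rw [sub_zero, one_mul, sum_sub_distrib, sum_const, card_univ, nsmul_eq_mul] at hle
  have h5 : (∑ i, (p : ℝ) ^ ν i) ≤ Fintype.card ι + Module.finrank ℤ (normKer G A) := by
    linarith
  have h6 : (∑ i, p ^ ν i) ≤ Fintype.card ι + Module.finrank ℤ (normKer G A) := by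
    exact_mod_cast h5
  have h7 : ∑ i, (p ^ ν i - 1) + Fintype.card ι = ∑ i, p ^ ν i := by
    have : Fintype.card ι = ∑ i : ι, 1 := by simp
    rw [this, ← sum_add_distrib]
    refine sum_congr rfl fun i _ => ?_
    exact Nat.sub_add_cancel (Nat.one_le_pow _ _ hp.out.pos)
  omega

end Main

end Pool.Agent.H12
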